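import Mathlib

/-!
# Definitions: curves on the weighted projective space `P(1, ..., 1, 2)`

`X_n`, the weighted projective space `P(1, ..., 1, 2)` with `n + 1` ones, is embedded by its ample
generator `O(2)` as the cone
`{(q, g) | q a symmetric (n+1) x (n+1) matrix of rank at most one}`.
For `n >= 2` it is a `Q`-factorial terminal Fano variety of Picard rank one; `n = 2` gives
`P(1,1,1,2)`.
-/

open Polynomial

namespace Pool.Agent.H22.GMC

universe u

/-- Coordinates of the ambient projective space of `X_n`: `some (i, j)` is the matrix entry
`q i j`, and `none` is the extra coordinate `g`. -/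
abbrev Coord (n : ℕ) : Type := Option (Fin (n + 1) × Fin (n + 1))

/-- Index set of the coefficients of a tuple of binary forms of degree `e`, one form for each
coordinate. -/
abbrev Idx (n e : ℕ) : Type := Coord n × Fin (e + 1)

/-- The binary form of degree `e` in the coordinate `a` of the tuple with coefficients `c`,
written in the inhomogeneous variable. -/
noncomputable def form {R : Type*} [Semiring R] {n e : ℕ} (c : Idx n e → R) (a : Coord n) : R[X] :=
  ∑ j : Fin (e + 1), Polynomial.C (c (a, j)) * Polynomial.X ^ (j : ℕ)

/-- `c` is the coefficient vector of a morphism of degree `e` from the projective line to `X_n`: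
the forms satisfy the equations of `X_n` (`q` is symmetric with vanishing 2 x 2 minors) and have no
common zero, neither at a finite point `t` nor at infinity. -/
structure IsMap {k : Type*} [Field k] {n e : ℕ} (c : Idx n e → k) : Prop where
  symm : ∀ i j, form c (some (i, j)) = form c (some (j, i))
  rank : ∀ i j i' j', form c (some (i, j)) * form c (some (i', j')) =
    form c (some (i, j')) * form c (some (i', j))
  base : ∀ t : k, ∃ a, (form c a).eval t ≠ 0
  base_infty : ∃ a, c (a, Fin.last e) ≠ 0

/-- The space of morphisms of degree `e` from the projective line to `X_n` (given by coefficient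
vectors; scaling a vector gives the same morphism). -/
structure Maps (k : Type u) [Field k] (n e : ℕ) : Type u where
  /-- the coefficients -/
  coeffs : Idx n e → k
  isMap : IsMap coeffs

/-- The Zariski topology on the space of morphisms, induced by the embedding into the prime
spectrum of the polynomial ring in the coefficients. -/
noncomputable instance (k : Type u) [Field k] (n e : ℕ) : TopologicalSpace (Maps k n e) :=
  TopologicalSpace.induced (fun c => MvPolynomial.pointToPoint (k := k) c.coeffs) inferInstance

/-- The ambient coordinates `q_{0,i}` (`i = 1, ..., n`) and `g`.  Divided by `q_{0,0}` they give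
rational functions on `X_n` which are algebraically independent and generate its function field. -/
def crd (n : ℕ) (a : Option (Fin n)) : Coord n := a.elim none (fun i => some (0, i.succ))

/-- A projective variety `Y` with a rational map `f : Y ⇢ X_n` (for instance a morphism).
`Y` is the closed subvariety of projective `r`-space with homogeneous prime ideal `I`, and `f` is
given by forms `F a` of the same degree `d`, one for each ambient coordinate of `X_n`, not all
zero on `Y`, which satisfy the equations of `X_n` on `Y`. -/
structure Source (k : Type u) [Field k] (n : ℕ) : Type u where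
  /-- dimension of the ambient projective space of `Y` -/
  r : ℕ
  /-- the homogeneous prime ideal of `Y` -/
  I : Ideal (MvPolynomial (Fin (r + 1)) k)
  isPrime : I.IsPrime
  homog : ∀ p ∈ I, ∀ D, MvPolynomial.homogeneousComponent D p ∈ I
  /-- degree of the forms defining `f` -/
  d : ℕ
  /-- the forms defining `f` -/
  F : Coord n → MvPolynomial (Fin (r + 1)) k
  F_homog : ∀ a, (F a).IsHomogeneous d
  F_symm : ∀ i j, F (some (i, j)) - F (some (j, i)) ∈ I
  F_rank : ∀ i j i' j', F (some (i, j)) * F (some (i', j')) - F (some (i, j')) * F (some (i', j)) ∈ I
  F_ne : ∃ a, F a ∉ I

namespace Source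

variable {k : Type u} [Field k] {n : ℕ} (Y : Source k n)

instance : Y.I.IsPrime := Y.isPrime

/-- The homogeneous coordinate ring of `Y`. -/
def S : Type u := MvPolynomial (Fin (Y.r + 1)) k ⧸ Y.I

noncomputable instance : CommRing Y.S := Ideal.Quotient.commRing Y.I

noncomputable instance : Algebra k Y.S := Ideal.instAlgebraQuotient k Y.I

instance : IsDomain Y.S := Ideal.Quotient.isDomain Y.I

/-- The restriction of polynomials to the affine cone over `Y`. -/
noncomputable def res : MvPolynomial (Fin (Y.r + 1)) k →+* Y.S := Ideal.Quotient.mk Y.I

/-- The function field of the affine cone over `Y`. -/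
def K : Type u := FractionRing Y.S

noncomputable instance : Field Y.K := FractionRing.field Y.S

noncomputable instance : Algebra k Y.K := (inferInstance : Algebra k (FractionRing Y.S))

noncomputable instance : Algebra Y.S Y.K := (inferInstance : Algebra Y.S (FractionRing Y.S))

/-- The quotient of two polynomials, as an element of the function field of the affine cone. -/
noncomputable def ratio (A B : MvPolynomial (Fin (Y.r + 1)) k) : Y.K :=
  algebraMap Y.S Y.K (Y.res A) / algebraMap Y.S Y.K (Y.res B)

/-- The function field `k(Y)` of `Y`: the field generated by quotients of forms of equal degree. -/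
noncomputable def functionField : IntermediateField k Y.K :=
  IntermediateField.adjoin k {z | ∃ (D : ℕ) (A B : MvPolynomial (Fin (Y.r + 1)) k),
    A.IsHomogeneous D ∧ B.IsHomogeneous D ∧ z = Y.ratio A B}

/-- The function field of the closure of the image of `f`, embedded in `k(Y)` by pullback. -/
noncomputable def imageField : IntermediateField k Y.K :=
  IntermediateField.adjoin k {z | ∃ a b : Coord n, z = Y.ratio (Y.F a) (Y.F b)}

/-- `f` is generically finite onto its image. -/
def GenericallyFinite : Prop := ∀ z ∈ Y.functionField, IsAlgebraic Y.imageField z

/-- `f` is birational: it is dominant (the pullbacks of the rational functions `q_{0,i} / q_{0,0}`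
and `g / q_{0,0}` are algebraically independent) and `k(Y)` is the pullback of `k(X_n)`. -/
def Birational : Prop :=
  AlgebraicIndependent k (fun a : Option (Fin n) => Y.ratio (Y.F (crd n a)) (Y.F (some (0, 0)))) ∧
    Y.functionField ≤ Y.imageField

/-- Substitution of the forms `ψ` (in one inhomogeneous variable) for the coordinates of projective
`r`-space: the composition of `p` with the map `ψ` from the projective line. -/
noncomputable def subst (ψ : Fin (Y.r + 1) → k[X]) (p : MvPolynomial (Fin (Y.r + 1)) k) : k[X] :=
  MvPolynomial.aeval ψ p

/-- The morphism `c` from the projective line to `X_n` is the composition of `f` with a map `ψ` of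
degree at most `e'` from the projective line to `Y`. -/
def Lifts (e' : ℕ) {e : ℕ} (c : Maps k n e) : Prop :=
  ∃ (ψ : Fin (Y.r + 1) → k[X]) (G : k[X]), (∀ i, (ψ i).natDegree ≤ e') ∧
    (∀ p ∈ Y.I, Y.subst ψ p = 0) ∧ G ≠ 0 ∧ ∀ a, Y.subst ψ (Y.F a) = G * form c.coeffs a

/-- For some `e'`, the members of `M` which are compositions of `f` with maps of degree at most
`e'` from the projective line to `Y` are dense in `M`.  This holds whenever composition with `f`
gives a dominant rational map from a component of the space of rational curves on `Y` to `M`. -/
def Dominates {e : ℕ} (M : Set (Maps k n e)) : Prop :=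
  ∃ e' : ℕ, M ⊆ closure {c | c ∈ M ∧ Y.Lifts e' c}

end Source

/-- The irreducible components of the space of morphisms of degree `e` which are not dominated by
curves on any `Y` for which `Breaking Y` holds. -/
def ManinComponents {k : Type u} [Field k] {n : ℕ} (Breaking : Source k n → Prop) (e : ℕ) :
    Set (Set (Maps k n e)) :=
  {M | M ∈ irreducibleComponents (Maps k n e) ∧ ∀ Y : Source k n, Breaking Y → ¬ Y.Dominates M}

end Pool.Agent.H22.GMC
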