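import Mathlib
import Pool.Agent.H22.GMC.Defs

namespace Pool.Agent.H22.GMC

universe u v w

section

open MvPolynomial Polynomial

/-- If a matrix of polynomials has a kernel vector at every point of `S`, then at every point of the
complement of the noninjectivity locus some polynomial vanishing on `S` does not vanish. -/
theorem exists_poly_of_injective {k σ ρ κ : Type*} [Field k] [Fintype ρ] [DecidableEq ρ]
    [Fintype κ] [DecidableEq κ] (A : Matrix ρ κ (MvPolynomial σ k)) (S : Set (σ → k))
    (hS : ∀ c ∈ S, ∃ v : κ → k, v ≠ 0 ∧ (A.map (MvPolynomial.eval c)).mulVec v = 0)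
    (c0 : σ → k) (h0 : ∀ v : κ → k, (A.map (MvPolynomial.eval c0)).mulVec v = 0 → v = 0) :
    ∃ G : MvPolynomial σ k, MvPolynomial.eval c0 G ≠ 0 ∧ ∀ c ∈ S, MvPolynomial.eval c G = 0 := by
  classical
  set M0 := A.map (MvPolynomial.eval c0) with hM0
  have hker : LinearMap.ker (Matrix.toLin' M0) = ⊥ := by
    rw [LinearMap.ker_eq_bot']
    intro v hv
    exact h0 v (by simpa using hv)
  obtain ⟨g, hg⟩ := (Matrix.toLin' M0).exists_leftInverse_of_injective hker
  set B := LinearMap.toMatrix' g with hB
  have hBM : B * M0 = 1 := by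
    have : LinearMap.toMatrix' (g.comp (Matrix.toLin' M0)) = 1 := by
      rw [hg]; exact LinearMap.toMatrix'_id
    rw [LinearMap.toMatrix'_comp, LinearMap.toMatrix'_toLin'] at this
    exact this
  refine ⟨(B.map (MvPolynomial.C (σ := σ)) * A).det, ?_, ?_⟩
  · rw [RingHom.map_det, RingHom.mapMatrix_apply, Matrix.map_mul]
    have : (B.map (MvPolynomial.C (σ := σ))).map (MvPolynomial.eval c0) = B := by
      ext i j; simp
    rw [this, ← hM0, hBM]
    simp
  · intro c hc
    obtain ⟨v, hv, hv0⟩ := hS c hc
    rw [RingHom.map_det, RingHom.mapMatrix_apply, Matrix.map_mul]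
    have : (B.map (MvPolynomial.C (σ := σ))).map (MvPolynomial.eval c) = B := by
      ext i j; simp
    rw [this]
    rw [← Matrix.exists_mulVec_eq_zero_iff]
    refine ⟨v, hv, ?_⟩
    rw [← Matrix.mulVec_mulVec, hv0, Matrix.mulVec_zero]


/-- polynomial with given coefficients -/
noncomputable def polyOf {R : Type*} [Semiring R] {a : ℕ} (v : Fin a → R) : R[X] :=
  ∑ i : Fin a, Polynomial.C (v i) * Polynomial.X ^ (i : ℕ)

theorem coeff_polyOf {R : Type*} [Semiring R] {a : ℕ} (v : Fin a → R) (i : ℕ) :
    (polyOf v).coeff i = if h : i < a then v ⟨i, h⟩ else 0 := by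
  classical
  unfold polyOf
  rw [Polynomial.finsetSum_coeff]
  simp only [Polynomial.coeff_C_mul, Polynomial.coeff_X_pow, mul_ite, mul_one, mul_zero]
  by_cases h : i < a
  · rw [dif_pos h, Finset.sum_eq_single ⟨i, h⟩]
    · simp
    · intro b _ hb
      rw [if_neg]
      intro hib
      exact hb (Fin.ext hib.symm)
    · simp
  · rw [dif_neg h]
    apply Finset.sum_eq_zero
    intro b _
    rw [if_neg]
    intro hib
    exact h (hib ▸ b.2)

theorem degree_polyOf_lt {R : Type*} [Semiring R] {a : ℕ} (v : Fin a → R) :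
    (polyOf v).degree < a := Polynomial.degree_sum_fin_lt v

theorem polyOf_coeff {R : Type*} [Semiring R] {a : ℕ} (p : R[X]) (hp : p.degree < a) :
    polyOf (fun i : Fin a => p.coeff i) = p := by
  ext i
  rw [coeff_polyOf]
  split_ifs with h
  · rfl
  · rw [Polynomial.coeff_eq_zero_of_degree_lt]
    exact lt_of_lt_of_le hp (by exact_mod_cast not_lt.mp h)

theorem exists_poly_of_no_syzygy {k σ : Type*} [Field k]
    (P Q : Polynomial (MvPolynomial σ k)) (a b : ℕ) (S : Set (σ → k))
    (hS : ∀ c ∈ S, ∃ u v : k[X], (u ≠ 0 ∨ v ≠ 0) ∧ u.degree < a ∧ v.degree < b ∧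
      u * P.map (MvPolynomial.eval c) = v * Q.map (MvPolynomial.eval c))
    (c0 : σ → k) (h0 : ∀ u v : k[X], u.degree < a → v.degree < b →
      u * P.map (MvPolynomial.eval c0) = v * Q.map (MvPolynomial.eval c0) → u = 0 ∧ v = 0) :
    ∃ G : MvPolynomial σ k, MvPolynomial.eval c0 G ≠ 0 ∧ ∀ c ∈ S, MvPolynomial.eval c G = 0 := by
  classical
  set N := max (a + P.natDegree) (b + Q.natDegree) + 1 with hN
  obtain ⟨A, hA1, hA2⟩ : ∃ A : Matrix (Fin N) (Fin a ⊕ Fin b) (MvPolynomial σ k),
      (∀ r i, A r (Sum.inl i) = (Polynomial.X ^ (i : ℕ) * P).coeff r) ∧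
      (∀ r i, A r (Sum.inr i) = - (Polynomial.X ^ (i : ℕ) * Q).coeff r) :=
    ⟨Matrix.of fun r s => Sum.elim (fun i => (Polynomial.X ^ (i : ℕ) * P).coeff r)
      (fun j => - (Polynomial.X ^ (j : ℕ) * Q).coeff r) s, fun _ _ => rfl, fun _ _ => rfl⟩
  have key : ∀ (c : σ → k) (v : Fin a ⊕ Fin b → k) (r : Fin N),
      (A.map (MvPolynomial.eval c)).mulVec v r =
        (polyOf (fun i => v (Sum.inl i)) * P.map (MvPolynomial.eval c) -
          polyOf (fun j => v (Sum.inr j)) * Q.map (MvPolynomial.eval c)).coeff r := by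
    intro c v r
    simp only [Matrix.mulVec, dotProduct, Fintype.sum_sum_type, Matrix.map_apply, hA1, hA2, polyOf,
      Polynomial.coeff_sub, Finset.sum_mul, Polynomial.finsetSum_coeff]
    rw [sub_eq_add_neg, ← Finset.sum_neg_distrib]
    congr 1
    · apply Finset.sum_congr rfl
      intro i _
      rw [mul_assoc, Polynomial.coeff_C_mul, mul_comm]
      congr 1
      rw [← Polynomial.coeff_map, Polynomial.map_mul, Polynomial.map_pow, Polynomial.map_X]
    · apply Finset.sum_congr rfl
      intro i _
      rw [mul_assoc, Polynomial.coeff_C_mul, mul_comm, map_neg, mul_neg]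
      congr 2
      rw [← Polynomial.coeff_map, Polynomial.map_mul, Polynomial.map_pow, Polynomial.map_X]
  have key2 : ∀ (c : σ → k) (v : Fin a ⊕ Fin b → k),
      (A.map (MvPolynomial.eval c)).mulVec v = 0 ↔
        polyOf (fun i => v (Sum.inl i)) * P.map (MvPolynomial.eval c) =
          polyOf (fun j => v (Sum.inr j)) * Q.map (MvPolynomial.eval c) := by
    intro c v
    rw [← sub_eq_zero (a := polyOf _ * _)]
    constructor
    · intro h
      ext r
      by_cases hr : r < N
      · have := key c v ⟨r, hr⟩
        rw [h] at this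
        simpa using this.symm
      · rw [Polynomial.coeff_zero, Polynomial.coeff_eq_zero_of_natDegree_lt]
        refine lt_of_lt_of_le (lt_of_le_of_lt (Polynomial.natDegree_sub_le _ _) ?_)
          (not_lt.mp hr)
        rw [hN, Nat.lt_succ_iff]
        have aux : ∀ (d : ℕ) (w : Fin d → k) (R : Polynomial (MvPolynomial σ k)),
            (polyOf w * R.map (MvPolynomial.eval c)).natDegree ≤ d + R.natDegree := by
          intro d w R
          refine le_trans Polynomial.natDegree_mul_le ?_
          have h1 : (polyOf w).natDegree ≤ d :=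
            Polynomial.natDegree_le_iff_degree_le.mpr (degree_polyOf_lt w).le
          have h2 := Polynomial.natDegree_map_le (f := MvPolynomial.eval c) (p := R)
          omega
        exact max_le_max (aux _ _ _) (aux _ _ _)
    · intro h
      funext r
      rw [key, h]
      simp
  apply exists_poly_of_injective A S _ c0 _
  · intro c hc
    obtain ⟨u, v, huv, hu, hv, h⟩ := hS c hc
    refine ⟨Sum.elim (fun i => u.coeff i) (fun j => v.coeff j), ?_, ?_⟩
    · intro h'
      have e1 : u = 0 := by
        rw [← polyOf_coeff u hu]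
        have : (fun i : Fin a => u.coeff i) = 0 := by
          funext i
          have := congrFun h' (Sum.inl i)
          simpa using this
        rw [this]
        simp [polyOf]
      have e2 : v = 0 := by
        rw [← polyOf_coeff v hv]
        have : (fun i : Fin b => v.coeff i) = 0 := by
          funext i
          have := congrFun h' (Sum.inr i)
          simpa using this
        rw [this]
        simp [polyOf]
      rcases huv with h1 | h1
      · exact h1 e1
      · exact h1 e2
    · rw [key2]
      simp only [Sum.elim_inl, Sum.elim_inr]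
      rw [polyOf_coeff u hu, polyOf_coeff v hv, h]
  · intro v hv
    rw [key2] at hv
    obtain ⟨h1, h2⟩ := h0 _ _ (degree_polyOf_lt _) (degree_polyOf_lt _) hv
    funext s
    rcases s with i | j
    · have := coeff_polyOf (fun i => v (Sum.inl i)) (i : ℕ)
      rw [h1] at this
      simpa using this.symm
    · have := coeff_polyOf (fun i => v (Sum.inr i)) (j : ℕ)
      rw [h2] at this
      simpa using this.symm

end

section

open MvPolynomial Polynomial

theorem form_eq_polyOf {R : Type*} [Semiring R] {n e : ℕ} (c : Idx n e → R) (a : Coord n) :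
    form c a = polyOf (fun j : Fin (e + 1) => c (a, j)) := rfl

variable {k : Type u} [Field k] {n e : ℕ}

theorem isInducing_pt : Topology.IsInducing
    (fun c : Maps k n e => MvPolynomial.pointToPoint (k := k) c.coeffs) := ⟨rfl⟩

/-- ideal of a set of maps -/
noncomputable def idealOf (M : Set (Maps k n e)) : Ideal (MvPolynomial (Idx n e) k) :=
  MvPolynomial.vanishingIdeal k (Maps.coeffs '' M)

theorem mem_idealOf {M : Set (Maps k n e)} {p : MvPolynomial (Idx n e) k} :
    p ∈ idealOf M ↔ ∀ x ∈ M, MvPolynomial.eval x.coeffs p = 0 := by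
  unfold idealOf
  rw [MvPolynomial.mem_vanishingIdeal_iff]
  constructor
  · intro h x hx
    have := h x.coeffs ⟨x, hx, rfl⟩
    simpa [MvPolynomial.aeval_eq_eval] using this
  · rintro h _ ⟨x, hx, rfl⟩
    simpa [MvPolynomial.aeval_eq_eval] using h x hx

theorem vanishingIdeal_image (M : Set (Maps k n e)) :
    PrimeSpectrum.vanishingIdeal
      ((fun c : Maps k n e => MvPolynomial.pointToPoint (k := k) c.coeffs) '' M) = idealOf M := by
  unfold idealOf
  rw [← MvPolynomial.vanishingIdeal_pointToPoint, Set.image_image]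

theorem mem_closure_iff_ideal {M : Set (Maps k n e)} {c : Maps k n e} :
    c ∈ closure M ↔ ∀ p ∈ idealOf M, MvPolynomial.eval c.coeffs p = 0 := by
  rw [isInducing_pt.closure_eq_preimage_closure_image, Set.mem_preimage,
    ← PrimeSpectrum.zeroLocus_vanishingIdeal_eq_closure, vanishingIdeal_image,
    PrimeSpectrum.mem_zeroLocus]
  constructor
  · intro h p hp
    have := h hp
    simpa [MvPolynomial.pointToPoint, MvPolynomial.aeval_eq_eval] using this
  · intro h p hp
    have := h p hp
    simpa [MvPolynomial.pointToPoint, MvPolynomial.aeval_eq_eval] using this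

theorem idealOf_closure (M : Set (Maps k n e)) : idealOf (closure M) = idealOf M := by
  apply le_antisymm
  · intro p hp
    rw [mem_idealOf] at hp ⊢
    exact fun x hx => hp x (subset_closure hx)
  · intro p hp
    rw [mem_idealOf]
    intro x hx
    exact mem_closure_iff_ideal.mp hx p hp

theorem isIrreducible_of_prime {M : Set (Maps k n e)} (h : (idealOf M).IsPrime) :
    IsIrreducible M := by
  rw [← vanishingIdeal_image, ← PrimeSpectrum.isIrreducible_iff_vanishingIdeal_isPrime] at h
  refine ⟨Set.image_nonempty.mp h.1, ?_⟩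
  intro u v hu hv hMu hMv
  obtain ⟨u', hu', rfl⟩ := isInducing_pt.isOpen_iff.mp hu
  obtain ⟨v', hv', rfl⟩ := isInducing_pt.isOpen_iff.mp hv
  obtain ⟨x, hx, hxu⟩ := hMu
  obtain ⟨y, hy, hyv⟩ := hMv
  obtain ⟨_, ⟨z, hz, rfl⟩, hz1, hz2⟩ := h.2 u' v' hu' hv' ⟨_, ⟨x, hx, rfl⟩, hxu⟩ ⟨_, ⟨y, hy, rfl⟩, hyv⟩
  exact ⟨z, hz, hz1, hz2⟩


theorem polyOf_map {R S : Type*} [Semiring R] [Semiring S] (f : R →+* S) {a : ℕ} (v : Fin a → R) :
    (polyOf v).map f = polyOf (fun i => f (v i)) := by
  ext i
  rw [Polynomial.coeff_map, coeff_polyOf, coeff_polyOf]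
  split_ifs <;> simp

theorem form_map {R S : Type*} [Semiring R] [Semiring S] (f : R →+* S) (c : Idx n e → R)
    (a : Coord n) : (form c a).map f = form (fun i => f (c i)) a := polyOf_map f _

theorem polyOf_ext {R : Type*} [Semiring R] {a : ℕ} {v w : Fin a → R} :
    polyOf v = polyOf w ↔ v = w := by
  constructor
  · intro h
    funext i
    have := congrArg (fun p => Polynomial.coeff p (i : ℕ)) h
    simpa [coeff_polyOf] using this
  · rintro rfl; rfl

/-- parameters: forms `f i` of degree `m`, a form `h` of degree `e - 2 m`, a form `g` of degree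
`e`. -/
abbrev Par (n e m : ℕ) : Type := (Fin (n + 1) × Fin (m + 1)) ⊕ (Fin (e - 2 * m + 1) ⊕ Fin (e + 1))

noncomputable def pf {R : Type*} [Semiring R] {m : ℕ} (x : Par n e m → R) (i : Fin (n + 1)) :
    R[X] := polyOf (fun j : Fin (m + 1) => x (Sum.inl (i, j)))

noncomputable def ph {R : Type*} [Semiring R] {m : ℕ} (x : Par n e m → R) : R[X] :=
  polyOf (fun j : Fin (e - 2 * m + 1) => x (Sum.inr (Sum.inl j)))

noncomputable def pg {R : Type*} [Semiring R] {m : ℕ} (x : Par n e m → R) : R[X] :=
  polyOf (fun j : Fin (e + 1) => x (Sum.inr (Sum.inr j)))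

/-- the parametrisation of the stratum. -/
noncomputable def Phi {R : Type*} [Semiring R] {m : ℕ} (x : Par n e m → R) : Idx n e → R :=
  fun a => (Option.elim a.1 (pg x) (fun ij => ph x * (pf x ij.1 * pf x ij.2))).coeff a.2

theorem natDegree_polyOf_le {R : Type*} [Semiring R] {a : ℕ} (v : Fin (a + 1) → R) :
    (polyOf v).natDegree ≤ a := by
  rw [← Nat.lt_succ_iff]
  by_cases h : polyOf v = 0
  · simp [h]
  · exact (Polynomial.natDegree_lt_iff_degree_lt h).mpr (degree_polyOf_lt v)

theorem polyOf_coeff' {R : Type*} [Semiring R] {a : ℕ} (p : R[X]) (hp : p.natDegree ≤ a) :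
    polyOf (fun i : Fin (a + 1) => p.coeff i) = p := by
  apply polyOf_coeff
  refine lt_of_le_of_lt (Polynomial.degree_le_natDegree) ?_
  exact_mod_cast Nat.lt_succ_of_le hp

theorem form_Phi_some {R : Type*} [CommSemiring R] {m : ℕ} (hm : 2 * m ≤ e) (x : Par n e m → R)
    (i j : Fin (n + 1)) : form (Phi x) (some (i, j)) = ph x * (pf x i * pf x j) := by
  rw [form_eq_polyOf]
  unfold Phi
  simp only [Option.elim_some]
  apply polyOf_coeff'
  refine le_trans Polynomial.natDegree_mul_le ?_
  have h1 : (ph x).natDegree ≤ e - 2 * m := natDegree_polyOf_le _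
  have h2 : (pf x i * pf x j).natDegree ≤ m + m :=
    le_trans Polynomial.natDegree_mul_le
      (add_le_add (natDegree_polyOf_le _) (natDegree_polyOf_le _))
  omega

theorem form_Phi_none {R : Type*} [CommSemiring R] {m : ℕ} (x : Par n e m → R) :
    form (Phi x) none = pg x := by
  rw [form_eq_polyOf]
  unfold Phi
  simp only [Option.elim_none]
  exact polyOf_coeff' _ (natDegree_polyOf_le _)

theorem Phi_map {R S : Type*} [CommSemiring R] [CommSemiring S] (f : R →+* S) {m : ℕ}
    (x : Par n e m → R) (a : Idx n e) : Phi (fun i => f (x i)) a = f (Phi x a) := by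
  unfold Phi
  rw [← Polynomial.coeff_map]
  congr 1
  rcases a with ⟨_ | ⟨i, j⟩, l⟩
  · simp only [Option.elim_none, pg, polyOf_map]
  · simp only [Option.elim_some, ph, pf, polyOf_map, Polynomial.map_mul]

/-- comorphism of the parametrisation -/
noncomputable def PhiStar (k : Type u) [Field k] (n e m : ℕ) :
    MvPolynomial (Idx n e) k →ₐ[k] MvPolynomial (Par n e m) k :=
  MvPolynomial.aeval (Phi (fun i => (MvPolynomial.X i : MvPolynomial (Par n e m) k)))

theorem aeval_PhiStar {A : Type*} [CommRing A] [Algebra k A] {m : ℕ} (x : Par n e m → A)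
    (p : MvPolynomial (Idx n e) k) :
    MvPolynomial.aeval x (PhiStar k n e m p) = MvPolynomial.aeval (Phi x) p := by
  have : (MvPolynomial.aeval x).comp (PhiStar k n e m) = MvPolynomial.aeval (Phi x) := by
    apply MvPolynomial.algHom_ext
    intro a
    rw [AlgHom.comp_apply, PhiStar, MvPolynomial.aeval_X, MvPolynomial.aeval_X]
    have := Phi_map ((MvPolynomial.aeval x : MvPolynomial (Par n e m) k →ₐ[k] A) :
      MvPolynomial (Par n e m) k →+* A) (fun i => (MvPolynomial.X i : MvPolynomial (Par n e m) k)) a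
    simp only [RingHom.coe_coe, MvPolynomial.aeval_X] at this
    exact this.symm
  rw [← this, AlgHom.comp_apply]

/-- The stratum. -/
def stratum (k : Type u) [Field k] (n e m : ℕ) : Set (Maps k n e) :=
  {c | ∃ x : Par n e m → k, c.coeffs = Phi x}

end

section

open MvPolynomial Polynomial

variable {k : Type u} [Field k] {n e : ℕ}

/-- assemble parameters from polynomials -/
noncomputable def mkPar {R : Type*} [Semiring R] {m : ℕ} (F : Fin (n + 1) → R[X]) (H G : R[X]) :
    Par n e m → R :=
  Sum.elim (fun ij => (F ij.1).coeff ij.2) (Sum.elim (fun j => H.coeff j) (fun j => G.coeff j))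

theorem pf_mkPar {R : Type*} [Semiring R] {m : ℕ} (F : Fin (n + 1) → R[X]) (H G : R[X])
    (i : Fin (n + 1)) (hF : (F i).natDegree ≤ m) :
    pf (mkPar F H G : Par n e m → R) i = F i := by
  unfold pf mkPar
  simp only [Sum.elim_inl]
  exact polyOf_coeff' _ hF

theorem ph_mkPar {R : Type*} [Semiring R] {m : ℕ} (F : Fin (n + 1) → R[X]) (H G : R[X])
    (hH : H.natDegree ≤ e - 2 * m) :
    ph (mkPar F H G : Par n e m → R) = H := by
  unfold ph mkPar
  simp only [Sum.elim_inr, Sum.elim_inl]
  exact polyOf_coeff' _ hH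

theorem pg_mkPar {R : Type*} [Semiring R] {m : ℕ} (F : Fin (n + 1) → R[X]) (H G : R[X])
    (hG : G.natDegree ≤ e) :
    pg (mkPar F H G : Par n e m → R) = G := by
  unfold pg mkPar
  simp only [Sum.elim_inr]
  exact polyOf_coeff' _ hG

theorem isMap_Phi {m : ℕ} (hm : 2 * m ≤ e) (he : 1 ≤ e) (x : Par n e m → k)
    (h : ∀ u v : k[X], u.degree < e → v.degree < e →
      u * form (Phi x) (some (0, 0)) = v * form (Phi x) none → u = 0 ∧ v = 0) :
    IsMap (Phi x) := by
  have hone : ¬ (form (Phi x) (some (0, 0)) = 0 ∧ form (Phi x) none = 0) := by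
    rintro ⟨h1, h2⟩
    have := h 1 0 (by rw [Polynomial.degree_one]; exact_mod_cast he)
      (by rw [Polynomial.degree_zero]; exact WithBot.bot_lt_coe _) (by rw [h1, h2]; simp)
    exact one_ne_zero this.1
  have hdeg : ∀ a, (form (Phi x) a).degree < (e + 1 : ℕ) := fun a => degree_polyOf_lt _
  refine ⟨?_, ?_, ?_, ?_⟩
  · intro i j
    rw [form_Phi_some hm, form_Phi_some hm]; ring
  · intro i j i' j'
    rw [form_Phi_some hm, form_Phi_some hm, form_Phi_some hm, form_Phi_some hm]; ring
  · intro t
    by_contra hcon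
    push Not at hcon
    have h1 := hcon (some (0, 0))
    have h2 := hcon none
    rw [← Polynomial.IsRoot.def, ← Polynomial.dvd_iff_isRoot] at h1 h2
    obtain ⟨q', hq'⟩ := h1
    obtain ⟨g', hg'⟩ := h2
    have hd : ∀ (p : k[X]) (a : Coord n), form (Phi x) a = (Polynomial.X - Polynomial.C t) * p →
        p.degree < e := by
      intro p a hp
      by_cases hp0 : p = 0
      · rw [hp0, Polynomial.degree_zero]; exact WithBot.bot_lt_coe _
      have := hdeg a
      rw [hp, Polynomial.degree_mul, Polynomial.degree_X_sub_C,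
        Polynomial.degree_eq_natDegree hp0] at this
      rw [Polynomial.degree_eq_natDegree hp0]
      have h3 : (1 + p.natDegree : ℕ) < e + 1 := by exact_mod_cast this
      exact_mod_cast (by omega : p.natDegree < e)
    obtain ⟨h3, h4⟩ := h g' q' (hd _ _ hg') (hd _ _ hq') (by rw [hq', hg']; ring)
    exact hone ⟨by rw [hq', h4, mul_zero], by rw [hg', h3, mul_zero]⟩
  · by_contra hcon
    push Not at hcon
    have hd : ∀ (a : Coord n), (form (Phi x) a).degree < e := by
      intro a
      rw [Polynomial.degree_lt_iff_coeff_zero]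
      intro i hi
      rcases eq_or_lt_of_le hi with h1 | h1
      · have := hcon a
        rw [form_eq_polyOf, coeff_polyOf, dif_pos (by omega)]
        rw [← this]
        congr 2
        exact Fin.ext h1.symm
      · rw [form_eq_polyOf, coeff_polyOf, dif_neg (by omega)]
    obtain ⟨h3, h4⟩ := h _ _ (hd none) (hd (some (0, 0))) (mul_comm _ _)
    exact hone ⟨h4, h3⟩

theorem idealOf_stratum [Infinite k] {m : ℕ} (hm : 2 * m ≤ e) (he : 1 ≤ e)
    (p : MvPolynomial (Idx n e) k) :
    p ∈ idealOf (stratum k n e m) ↔ PhiStar k n e m p = 0 := by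
  constructor
  · intro hp
    rw [mem_idealOf] at hp
    set S : Set (Par n e m → k) := {x | ¬ IsMap (Phi x)} with hS
    have hmap : ∀ (x : Par n e m → k) (a : Coord n),
        (form (Phi (fun i => (MvPolynomial.X i : MvPolynomial (Par n e m) k))) a).map
          (MvPolynomial.eval x) = form (Phi x) a := by
      intro x a
      rw [form_map]
      congr 1
      funext i
      rw [← Phi_map]
      simp
    obtain ⟨G, hG1, hG2⟩ := exists_poly_of_no_syzygy
      (form (Phi (fun i => (MvPolynomial.X i : MvPolynomial (Par n e m) k))) (some (0, 0)))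
      (form (Phi (fun i => (MvPolynomial.X i : MvPolynomial (Par n e m) k))) none)
      e e S (by
        intro x hx
        by_contra hcon
        apply hx
        apply isMap_Phi hm he
        intro u v hu hv huv
        by_contra h'
        apply hcon
        refine ⟨u, v, ?_, hu, hv, ?_⟩
        · tauto
        · rw [hmap, hmap]; exact huv)
      (mkPar (fun _ => 1) 1 (Polynomial.X ^ e)) (by
        intro u v hu hv huv
        rw [hmap, hmap, form_Phi_some hm, form_Phi_none, pf_mkPar, ph_mkPar, pg_mkPar] at huv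
        · have hv0 : v = 0 := by
            by_contra hv0
            have h1 : u.degree = v.degree + e := by
              have := congrArg Polynomial.degree huv
              simpa using this
            rw [h1] at hu
            have : (0 : WithBot ℕ) ≤ v.degree := by
              rw [Polynomial.degree_eq_natDegree hv0]; exact_mod_cast Nat.zero_le _
            have h2 : (e : WithBot ℕ) ≤ v.degree + e := by
              calc (e : WithBot ℕ) = 0 + e := by rw [zero_add]
                _ ≤ v.degree + e := by gcongr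
            exact absurd hu (not_lt.mpr h2)
          subst hv0
          simpa using huv
        · simp
        · simp
        · simp)
    have hprod : G * PhiStar k n e m p = 0 := by
      apply MvPolynomial.funext
      intro x
      rw [map_mul, map_zero]
      by_cases hx : IsMap (Phi x)
      · have := hp ⟨Phi x, hx⟩ ⟨x, rfl⟩
        have h2 := aeval_PhiStar (k := k) (A := k) x p
        rw [MvPolynomial.aeval_eq_eval, MvPolynomial.aeval_eq_eval] at h2
        rw [h2, this, mul_zero]
      · rw [hG2 x hx, zero_mul]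
    rcases mul_eq_zero.mp hprod with h | h
    · rw [h, map_zero] at hG1; exact absurd rfl hG1
    · exact h
  · intro hp
    rw [mem_idealOf]
    rintro c ⟨x, hx⟩
    have h2 := aeval_PhiStar (k := k) (A := k) x p
    rw [hp, map_zero, MvPolynomial.aeval_eq_eval] at h2
    rw [hx]
    exact h2.symm

theorem idealOf_stratum_isPrime [Infinite k] {m : ℕ} (hm : 2 * m ≤ e) (he : 1 ≤ e) :
    (idealOf (stratum k n e m)).IsPrime := by
  have : idealOf (stratum k n e m) = RingHom.ker (PhiStar k n e m) := by
    ext p
    rw [idealOf_stratum hm he, RingHom.mem_ker]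
  rw [this]
  exact RingHom.ker_isPrime _

theorem isIrreducible_closure_stratum [Infinite k] {m : ℕ} (hm : 2 * m ≤ e) (he : 1 ≤ e) :
    IsIrreducible (closure (stratum k n e m)) :=
  (isIrreducible_of_prime (idealOf_stratum_isPrime hm he)).closure

end

section

open MvPolynomial Polynomial

section Factor

variable {k : Type u} [Field k]

theorem exists_squarefree_mul_sq (a : k[X]) (ha : a ≠ 0) :
    ∃ h s : k[X], Squarefree h ∧ a = h * s ^ 2 := by
  induction a using UniqueFactorizationMonoid.induction_on_prime with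
  | h₁ => exact absurd rfl ha
  | h₂ x hx => exact ⟨x, 1, hx.squarefree, by simp⟩
  | h₃ a p ha0 hp ih =>
    obtain ⟨h, s, hh, rfl⟩ := ih ha0
    by_cases hd : p ∣ h
    · obtain ⟨h', rfl⟩ := hd
      exact ⟨h', p * s, hh.squarefree_of_dvd (Dvd.intro_left p rfl), by ring⟩
    · refine ⟨p * h, s, ?_, by ring⟩
      rw [squarefree_mul_iff]
      exact ⟨hp.irreducible.isRelPrime_iff_not_dvd.mpr hd, hp.irreducible.squarefree, hh⟩

theorem dvd_of_sq_dvd_mul_sq (h s r : k[X]) (hh : Squarefree h) (hs : s ≠ 0)
    (hd : s ^ 2 ∣ h * r ^ 2) : s ∣ r := by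
  classical
  obtain ⟨g, s', r', hg, hcop, hs', hr'⟩ : ∃ g s' r' : k[X], g ≠ 0 ∧ IsCoprime s' r' ∧ s = g * s' ∧ r = g * r' := by
    have hg : EuclideanDomain.gcd s r ≠ 0 := by
      intro h0
      exact hs (EuclideanDomain.gcd_eq_zero_iff.mp h0).1
    obtain ⟨s', hs'⟩ := EuclideanDomain.gcd_dvd_left s r
    obtain ⟨r', hr'⟩ := EuclideanDomain.gcd_dvd_right s r
    refine ⟨EuclideanDomain.gcd s r, s', r', hg, ?_, hs', hr'⟩
    obtain ⟨x, y, hxy⟩ : ∃ x y, EuclideanDomain.gcd s r = s * x + r * y :=
      ⟨_, _, EuclideanDomain.gcd_eq_gcd_ab s r⟩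
    refine ⟨x, y, ?_⟩
    apply mul_left_cancel₀ hg
    calc EuclideanDomain.gcd s r * (x * s' + y * r')
        = (EuclideanDomain.gcd s r * s') * x + (EuclideanDomain.gcd s r * r') * y := by ring
      _ = s * x + r * y := by rw [← hs', ← hr']
      _ = EuclideanDomain.gcd s r * 1 := by rw [← hxy, mul_one]
  subst hs' hr'
  have h1 : s' ^ 2 ∣ h * r' ^ 2 := by
    obtain ⟨w, hw⟩ := hd
    refine ⟨w, ?_⟩
    apply mul_left_cancel₀ (pow_ne_zero 2 hg)
    linear_combination hw
  have h2 : s' ^ 2 ∣ h := (IsCoprime.pow hcop).dvd_of_dvd_mul_right h1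
  have h3 : IsUnit s' := hh s' (by rwa [← pow_two])
  exact mul_dvd_mul_left g (h3.dvd)

theorem factor_rank_one {ι : Type*} (q : ι → ι → k[X])
    (hsymm : ∀ i j, q i j = q j i) (hrank : ∀ i j i' j', q i j * q i' j' = q i j' * q i' j)
    (i0 : ι) (h0 : q i0 i0 ≠ 0) :
    ∃ (h : k[X]) (f : ι → k[X]), h ≠ 0 ∧ f i0 ≠ 0 ∧ ∀ i j, q i j = h * (f i * f j) := by
  obtain ⟨h, s, hh, ha⟩ := exists_squarefree_mul_sq _ h0
  have hs : s ≠ 0 := by
    rintro rfl
    apply h0
    rw [ha]; ring
  have hh0 : h ≠ 0 := hh.ne_zero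
  have key : ∀ j, ∃ f : k[X], q i0 j = h * (s * f) := by
    intro j
    have h1 : q i0 j ^ 2 = q j j * (h * s ^ 2) := by
      rw [← ha, pow_two]
      nth_rewrite 2 [hsymm i0 j]
      rw [hrank i0 j j i0]
      ring
    have h2 : h ∣ q i0 j := by
      have : h ∣ q i0 j ^ 2 := ⟨q j j * s ^ 2, by rw [h1]; ring⟩
      exact (hh.dvd_pow_iff_dvd two_ne_zero).mp this
    obtain ⟨r, hr⟩ := h2
    have h3 : s ^ 2 ∣ h * r ^ 2 := by
      refine ⟨q j j, ?_⟩
      apply mul_left_cancel₀ hh0
      rw [hr] at h1
      linear_combination h1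
    obtain ⟨f, hf⟩ := dvd_of_sq_dvd_mul_sq h s r hh hs h3
    exact ⟨f, by rw [hr, hf]⟩
  choose f hf using key
  refine ⟨h, f, hh0, ?_, ?_⟩
  · intro hf0
    apply h0
    rw [hf i0, hf0]; ring
  · intro i j
    have h1 : q i0 i0 * q i j = q i0 j * q i0 i := by
      rw [hrank i0 i0 i j, hsymm i i0]
    rw [ha, hf j, hf i] at h1
    apply mul_left_cancel₀ (mul_ne_zero hh0 (pow_ne_zero 2 hs))
    rw [h1]
    ring

end Factor


variable {k : Type u} [Field k] {n e : ℕ}

theorem coeff_form {R : Type*} [Semiring R] (c : Idx n e → R) (a : Coord n) (l : Fin (e + 1)) :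
    (form c a).coeff l = c (a, l) := by
  rw [form_eq_polyOf, coeff_polyOf, dif_pos l.2]

theorem natDegree_form_le {R : Type*} [Semiring R] (c : Idx n e → R) (a : Coord n) :
    (form c a).natDegree ≤ e := natDegree_polyOf_le _

theorem eq_of_form_eq {R : Type*} [Semiring R] {c d : Idx n e → R}
    (h : ∀ a, form c a = form d a) : c = d := by
  funext ⟨a, l⟩
  rw [← coeff_form c, h, coeff_form]

theorem exists_mem_stratum [IsAlgClosed k] (he : 1 ≤ e) (c : Maps k n e) :
    ∃ m, 2 * m ≤ e ∧ c ∈ stratum k n e m := by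
  have hc := c.isMap
  have h1 : ∃ i0, form c.coeffs (some (i0, i0)) ≠ 0 := by
    by_contra hcon
    push Not at hcon
    have hall : ∀ i j, form c.coeffs (some (i, j)) = 0 := by
      intro i j
      have := hc.rank i j j i
      rw [hcon i, zero_mul, ← hc.symm i j] at this
      exact mul_self_eq_zero.mp this
    have hbase : ∀ t : k, (form c.coeffs none).eval t ≠ 0 := by
      intro t
      obtain ⟨a, ha⟩ := hc.base t
      rcases a with _ | ⟨i, j⟩
      · exact ha
      · rw [hall] at ha; simp at ha
    have hinf : c.coeffs (none, Fin.last e) ≠ 0 := by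
      obtain ⟨a, ha⟩ := hc.base_infty
      rcases a with _ | ⟨i, j⟩
      · exact ha
      · rw [← coeff_form c.coeffs, hall] at ha; simp at ha
    have hdeg : (form c.coeffs none).degree ≠ 0 := by
      intro h0
      have : (form c.coeffs none).coeff e = 0 := by
        apply Polynomial.coeff_eq_zero_of_degree_lt
        rw [h0]; exact_mod_cast he
      apply hinf
      rw [← coeff_form c.coeffs]
      exact this
    obtain ⟨t, ht⟩ := IsAlgClosed.exists_root _ hdeg
    exact hbase t ht
  obtain ⟨i0, h0⟩ := h1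
  obtain ⟨h, f, hh, hf0, hq⟩ := factor_rank_one (fun i j => form c.coeffs (some (i, j)))
    hc.symm hc.rank i0 h0
  obtain ⟨j0, hj0⟩ := Finite.exists_max (fun j => (f j).natDegree)
  obtain ⟨j1, hj1, hj1'⟩ : ∃ j1, f j1 ≠ 0 ∧ (f j1).natDegree = (f j0).natDegree := by
    by_cases hfj0 : f j0 = 0
    · refine ⟨i0, hf0, ?_⟩
      have := hj0 i0
      rw [hfj0] at this ⊢
      simpa using this
    · exact ⟨j0, hfj0, rfl⟩
  set m := (f j0).natDegree with hm
  have hdeg : h.natDegree + 2 * m ≤ e := by
    have h1 := hq j1 j1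
    have h2 : (form c.coeffs (some (j1, j1))).natDegree ≤ e := natDegree_form_le _ _
    rw [h1, Polynomial.natDegree_mul hh (mul_ne_zero hj1 hj1),
      Polynomial.natDegree_mul hj1 hj1, hj1'] at h2
    omega
  refine ⟨m, by omega, mkPar f h (form c.coeffs none), ?_⟩
  apply eq_of_form_eq
  intro a
  rcases a with _ | ⟨i, j⟩
  · rw [form_Phi_none, pg_mkPar]
    exact natDegree_form_le _ _
  · rw [form_Phi_some (by omega), pf_mkPar, pf_mkPar, ph_mkPar]
    · exact hq i j
    · omega
    · exact hj0 j
    · exact hj0 i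

end

section

open MvPolynomial Polynomial

variable {k : Type u} [Field k] {n e : ℕ}

theorem isMap_Phi_of_base {m : ℕ} (hm : 2 * m ≤ e) (x : Par n e m → k)
    (h1 : ∀ t : k, ∃ a, (form (Phi x) a).eval t ≠ 0)
    (h2 : ∃ a, (form (Phi x) a).coeff e ≠ 0) : IsMap (Phi x) := by
  refine ⟨?_, ?_, h1, ?_⟩
  · intro i j
    rw [form_Phi_some hm, form_Phi_some hm]; ring
  · intro i j i' j'
    rw [form_Phi_some hm, form_Phi_some hm, form_Phi_some hm, form_Phi_some hm]; ring
  · obtain ⟨a, ha⟩ := h2
    refine ⟨a, ?_⟩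
    rw [← coeff_form (Phi x)]
    exact ha

/-- generic coefficients -/
noncomputable def gen (k : Type u) [Field k] (n e : ℕ) : Idx n e → MvPolynomial (Idx n e) k :=
  fun i => MvPolynomial.X i

theorem form_gen_map (c : Idx n e → k) (a : Coord n) :
    (form (gen k n e) a).map (MvPolynomial.eval c) = form c a := by
  rw [form_map]
  congr 1
  funext i
  simp [gen]

theorem not_mem_closure_of_poly {m' : ℕ} (c0 : Maps k n e)
    (h : ∃ G : MvPolynomial (Idx n e) k, MvPolynomial.eval c0.coeffs G ≠ 0 ∧
      ∀ c ∈ Maps.coeffs '' stratum k n e m', MvPolynomial.eval c G = 0) :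
    c0 ∉ closure (stratum k n e m') := by
  obtain ⟨G, h1, h2⟩ := h
  intro hc
  apply h1
  rw [mem_closure_iff_ideal] at hc
  apply hc
  rw [mem_idealOf]
  intro x hx
  exact h2 _ ⟨x, hx, rfl⟩

theorem not_subset_of_gt (hn : 1 ≤ n) {m m' : ℕ} (hm : 2 * m ≤ e)
    (hlt : m' < m) : ¬ stratum k n e m ⊆ closure (stratum k n e m') := by
  intro hsub
  have h01 : (⟨1, by omega⟩ : Fin (n + 1)) ≠ 0 := by
    intro h; exact absurd (congrArg Fin.val h) (by simp)
  set i1 : Fin (n + 1) := ⟨1, by omega⟩ with hi1
  have hm' : 2 * m' ≤ e := by omega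
  set F : Fin (n + 1) → k[X] := fun i => if i = 0 then 1 else Polynomial.X ^ m with hF
  have hFdeg : ∀ i, (F i).natDegree ≤ m := by
    intro i
    simp only [hF]
    split_ifs
    · simp
    · simp
  set x : Par n e m → k := mkPar F 1 (Polynomial.X ^ e) with hx
  have e1 : ph x = 1 := ph_mkPar _ _ _ (by simp)
  have e2 : ∀ i, pf x i = F i := fun i => pf_mkPar _ _ _ i (hFdeg i)
  have e3 : pg x = Polynomial.X ^ e := pg_mkPar _ _ _ (by simp)
  have hmap : IsMap (Phi x) := by
    apply isMap_Phi_of_base hm
    · intro t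
      refine ⟨some (0, 0), ?_⟩
      rw [form_Phi_some hm, e1, e2]
      simp [hF]
    · refine ⟨none, ?_⟩
      rw [form_Phi_none, e3]
      simp
  apply not_mem_closure_of_poly (m' := m') (⟨Phi x, hmap⟩ : Maps k n e) _ (hsub ⟨x, rfl⟩)
  apply exists_poly_of_no_syzygy (form (gen k n e) (some (0, 0))) (form (gen k n e) (some (i1, i1)))
    (2 * m' + 1) (2 * m' + 1)
  · rintro _ ⟨c, ⟨y, hy⟩, rfl⟩
    rw [form_gen_map, form_gen_map, hy, form_Phi_some hm', form_Phi_some hm']
    by_cases hz : pf y 0 = 0 ∧ pf y i1 = 0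
    · refine ⟨1, 0, Or.inl one_ne_zero, ?_, ?_, ?_⟩
      · rw [Polynomial.degree_one]; exact_mod_cast Nat.succ_pos _
      · rw [Polynomial.degree_zero]; exact WithBot.bot_lt_coe _
      · rw [hz.1, hz.2]; simp
    · have hd : ∀ i, (pf y i ^ 2).degree < ((2 * m' + 1 : ℕ) : WithBot ℕ) := by
        intro i
        rw [Polynomial.degree_lt_iff_coeff_zero]
        intro l hl
        apply Polynomial.coeff_eq_zero_of_natDegree_lt
        have : (pf y i).natDegree ≤ m' := natDegree_polyOf_le _
        refine lt_of_le_of_lt (Polynomial.natDegree_pow_le_of_le 2 this) ?_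
        omega
      refine ⟨pf y i1 ^ 2, pf y 0 ^ 2, ?_, hd _, hd _, by ring⟩
      by_contra hcon
      push Not at hcon
      exact hz ⟨pow_eq_zero_iff (two_ne_zero) |>.mp hcon.2,
        pow_eq_zero_iff (two_ne_zero) |>.mp hcon.1⟩
  · intro u v hu hv huv
    rw [form_gen_map, form_gen_map] at huv
    rw [form_Phi_some hm, form_Phi_some hm, e1, e2, e2] at huv
    have hF0 : F 0 = 1 := by simp [hF]
    have hF1 : F i1 = Polynomial.X ^ m := by simp only [hF]; rw [if_neg h01]
    rw [hF0, hF1] at huv
    have huv' : u = v * Polynomial.X ^ (2 * m) := by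
      rw [two_mul, pow_add]
      linear_combination huv
    have hv0 : v = 0 := by
      by_contra hv0
      have h1 : u.degree = v.degree + (2 * m : ℕ) := by
        rw [huv', Polynomial.degree_mul, Polynomial.degree_X_pow]
      rw [h1] at hu
      rw [Polynomial.degree_eq_natDegree hv0] at hu
      have : v.natDegree + 2 * m < 2 * m' + 1 := by exact_mod_cast hu
      omega
    subst hv0
    exact ⟨by rw [huv']; simp, rfl⟩

theorem not_subset_of_lt [CharZero k] {m m' : ℕ} (hm' : 2 * m' ≤ e) (he : 1 ≤ e)
    (hlt : m < m') : ¬ stratum k n e m ⊆ closure (stratum k n e m') := by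
  intro hsub
  have hm : 2 * m ≤ e := by omega
  have hinj : Function.Injective (fun i : ℕ => (i : k)) := Nat.cast_injective
  set f0 : k[X] := ∏ i ∈ Finset.range m, (Polynomial.X - Polynomial.C (i : k)) with hf0
  set h0 : k[X] := ∏ i ∈ Finset.Ico m (e - m), (Polynomial.X - Polynomial.C (i : k)) with hh0
  have hf0m : f0.Monic := Polynomial.monic_prod_of_monic _ _ (fun i _ => Polynomial.monic_X_sub_C _)
  have hh0m : h0.Monic := Polynomial.monic_prod_of_monic _ _ (fun i _ => Polynomial.monic_X_sub_C _)
  have hf0d : f0.natDegree = m := by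
    rw [hf0, Polynomial.natDegree_prod_of_monic _ _ (fun i _ => Polynomial.monic_X_sub_C _),
      Finset.sum_congr rfl (fun i _ => Polynomial.natDegree_X_sub_C _)]
    simp
  have hh0d : h0.natDegree = e - 2 * m := by
    rw [hh0, Polynomial.natDegree_prod_of_monic _ _ (fun i _ => Polynomial.monic_X_sub_C _),
      Finset.sum_congr rfl (fun i _ => Polynomial.natDegree_X_sub_C _)]
    simp
    omega
  have hw : f0 * h0 = ∏ i ∈ Finset.range (e - m), (Polynomial.X - Polynomial.C (i : k)) := by
    rw [hf0, hh0, Finset.prod_range_mul_prod_Ico _ (by omega)]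
  set F : Fin (n + 1) → k[X] := fun i => if i = 0 then f0 else 1 with hF
  have hFdeg : ∀ i, (F i).natDegree ≤ m := by
    intro i
    simp only [hF]
    split_ifs
    · exact hf0d.le
    · simp
  set x : Par n e m → k := mkPar F h0 1 with hx
  have e1 : ph x = h0 := ph_mkPar _ _ _ hh0d.le
  have e2 : ∀ i, pf x i = F i := fun i => pf_mkPar _ _ _ i (hFdeg i)
  have e3 : pg x = 1 := pg_mkPar _ _ _ (by simp)
  have hF0 : F 0 = f0 := by simp [hF]
  have hmap : IsMap (Phi x) := by
    apply isMap_Phi_of_base hm
    · intro t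
      refine ⟨none, ?_⟩
      rw [form_Phi_none, e3]
      simp
    · refine ⟨some (0, 0), ?_⟩
      rw [form_Phi_some hm, e1, e2, hF0]
      have hmon : (h0 * (f0 * f0)).Monic := hh0m.mul (hf0m.mul hf0m)
      have hdeg : (h0 * (f0 * f0)).natDegree = e := by
        rw [hh0m.natDegree_mul (hf0m.mul hf0m), hf0m.natDegree_mul hf0m, hh0d, hf0d]
        omega
      rw [← hdeg, Polynomial.coeff_natDegree, hmon]
      exact one_ne_zero
  apply not_mem_closure_of_poly (m' := m') (⟨Phi x, hmap⟩ : Maps k n e) _ (hsub ⟨x, rfl⟩)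
  apply exists_poly_of_no_syzygy (form (gen k n e) (some (0, 0)))
    (derivative (form (gen k n e) (some (0, 0)))) (e - m') (e - m' + 1)
  · rintro _ ⟨c, ⟨y, hy⟩, rfl⟩
    rw [← Polynomial.derivative_map, form_gen_map, hy, form_Phi_some hm']
    by_cases hz : ph y * pf y 0 = 0
    · refine ⟨1, 0, Or.inl one_ne_zero, ?_, ?_, ?_⟩
      · rw [Polynomial.degree_one]; exact_mod_cast (by omega : 0 < e - m')
      · rw [Polynomial.degree_zero]; exact WithBot.bot_lt_coe _
      · have hz2 : ph y * (pf y 0 * pf y 0) = 0 := by rw [← mul_assoc, hz, zero_mul]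
        rw [hz2]; simp
    · have d1 : (ph y).natDegree ≤ e - 2 * m' := natDegree_polyOf_le _
      have d2 : (pf y 0).natDegree ≤ m' := natDegree_polyOf_le _
      refine ⟨derivative (ph y) * pf y 0 + 2 * (ph y * derivative (pf y 0)), ph y * pf y 0,
        Or.inr hz, ?_, ?_, ?_⟩
      · have d3 : (derivative (ph y)).natDegree ≤ (ph y).natDegree - 1 :=
          Polynomial.natDegree_derivative_le _
        have d4 : (derivative (pf y 0)).natDegree ≤ (pf y 0).natDegree - 1 :=
          Polynomial.natDegree_derivative_le _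
        rw [Polynomial.degree_lt_iff_coeff_zero]
        intro l hl
        rw [Polynomial.coeff_add]
        have c1 : (derivative (ph y) * pf y 0).coeff l = 0 := by
          by_cases hd : (ph y).natDegree = 0
          · rw [Polynomial.derivative_of_natDegree_zero hd]; simp
          · apply Polynomial.coeff_eq_zero_of_natDegree_lt
            refine lt_of_le_of_lt Polynomial.natDegree_mul_le ?_
            omega
        have c2 : (2 * (ph y * derivative (pf y 0))).coeff l = 0 := by
          have : (2 : k[X]) = Polynomial.C 2 := (map_ofNat Polynomial.C 2).symm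
          rw [this, Polynomial.coeff_C_mul]
          have : (ph y * derivative (pf y 0)).coeff l = 0 := by
            by_cases hd : (pf y 0).natDegree = 0
            · rw [Polynomial.derivative_of_natDegree_zero hd]; simp
            · apply Polynomial.coeff_eq_zero_of_natDegree_lt
              refine lt_of_le_of_lt Polynomial.natDegree_mul_le ?_
              omega
          rw [this, mul_zero]
        rw [c1, c2, add_zero]
      · rw [Polynomial.degree_lt_iff_coeff_zero]
        intro l hl
        apply Polynomial.coeff_eq_zero_of_natDegree_lt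
        refine lt_of_le_of_lt Polynomial.natDegree_mul_le ?_
        omega
      · rw [Polynomial.derivative_mul, Polynomial.derivative_mul]
        ring
  · intro u v hu hv huv
    rw [← Polynomial.derivative_map, form_gen_map] at huv
    rw [form_Phi_some hm, e1, e2, hF0] at huv
    set w := f0 * h0 with hwdef
    set w2 := derivative h0 * f0 + 2 * (h0 * derivative f0) with hw2
    clear_value w w2
    have hsep : w.Separable := by
      rw [hw]
      exact Polynomial.separable_prod_X_sub_C_iff' |>.mpr (fun a _ b _ hab => hinj hab)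
    have hcop : IsCoprime w w2 := by
      rw [hw]
      apply IsCoprime.prod_left
      intro i hi
      apply (Polynomial.irreducible_X_sub_C _).coprime_iff_not_dvd.mpr
      rw [Polynomial.dvd_iff_isRoot, Polynomial.IsRoot.def]
      intro hroot
      have hwi : w.eval (i : k) = 0 := by
        rw [hw, Polynomial.eval_prod]
        exact Finset.prod_eq_zero hi (by simp)
      have hw'i : (derivative w).eval (i : k) ≠ 0 := by
        intro h'
        obtain ⟨p, q, hpq⟩ := hsep
        have := congrArg (Polynomial.eval (i : k)) hpq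
        rw [Polynomial.eval_add, Polynomial.eval_mul, Polynomial.eval_mul, hwi, h'] at this
        simp at this
      have hw'e : derivative w = derivative f0 * h0 + f0 * derivative h0 := by
        rw [hwdef, Polynomial.derivative_mul]
      rw [hwdef, Polynomial.eval_mul] at hwi
      rw [hw'e, Polynomial.eval_add, Polynomial.eval_mul, Polynomial.eval_mul] at hw'i
      rw [hw2, Polynomial.eval_add, Polynomial.eval_mul, Polynomial.eval_mul,
        Polynomial.eval_mul] at hroot
      rcases mul_eq_zero.mp hwi with h' | h'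
      · rw [h'] at hroot hw'i
        simp only [mul_zero, zero_add, zero_mul, add_zero, Polynomial.eval_ofNat] at hroot hw'i
        apply hw'i
        rw [mul_comm]
        exact (mul_eq_zero.mp hroot).resolve_left two_ne_zero
      · rw [h'] at hroot hw'i
        simp only [mul_zero, zero_add, zero_mul, add_zero] at hroot hw'i
        apply hw'i
        rw [mul_comm]
        exact hroot
    have huv2 : u * w = v * w2 := by
      apply mul_left_cancel₀ hf0m.ne_zero
      rw [Polynomial.derivative_mul, Polynomial.derivative_mul] at huv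
      rw [hwdef, hw2]
      linear_combination huv
    have hdvd : w ∣ v := hcop.dvd_of_dvd_mul_right ⟨u, by rw [← huv2]; ring⟩
    have hwm : w.Monic := by rw [hwdef]; exact hf0m.mul hh0m
    have hwd : w.natDegree = e - m := by
      rw [hwdef, hf0m.natDegree_mul hh0m, hf0d, hh0d]; omega
    have hv0 : v = 0 := by
      by_contra hv0
      have h1 := Polynomial.natDegree_le_of_dvd hdvd hv0
      rw [hwd] at h1
      rw [Polynomial.degree_eq_natDegree hv0] at hv
      have : v.natDegree < e - m' + 1 := by exact_mod_cast hv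
      omega
    subst hv0
    rw [zero_mul] at huv2
    exact ⟨(mul_eq_zero.mp huv2).resolve_right hwm.ne_zero, rfl⟩


/-- The irreducible components of the space of maps. -/
theorem irreducibleComponents_maps [IsAlgClosed k] [CharZero k] (hn : 1 ≤ n) (he : 1 ≤ e) :
    irreducibleComponents (Maps k n e) =
      (fun m => closure (stratum k n e m)) '' {m : ℕ | 2 * m ≤ e} := by
  have hfin : ({m : ℕ | 2 * m ≤ e}).Finite := by
    apply Set.Finite.subset (Set.finite_Iic e)
    intro m hm
    simp only [Set.mem_setOf_eq] at hm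
    simp only [Set.mem_Iic]
    omega
  have hcover : ∀ c : Maps k n e, ∃ m, 2 * m ≤ e ∧ c ∈ closure (stratum k n e m) := by
    intro c
    obtain ⟨m, hm, hc⟩ := exists_mem_stratum he c
    exact ⟨m, hm, subset_closure hc⟩
  have hirr : ∀ S : Set (Maps k n e), IsIrreducible S → ∃ m, 2 * m ≤ e ∧
      S ⊆ closure (stratum k n e m) := by
    intro S hS
    rw [isIrreducible_iff_sUnion_isClosed] at hS
    obtain ⟨z, hz, hSz⟩ := hS ((hfin.image (fun m => closure (stratum k n e m))).toFinset)
      (by
        intro z hz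
        simp only [Set.Finite.mem_toFinset, Set.mem_image] at hz
        obtain ⟨m, _, rfl⟩ := hz
        exact isClosed_closure)
      (by
        intro c _
        obtain ⟨m, hm, hc⟩ := hcover c
        refine ⟨_, ?_, hc⟩
        simp only [Set.Finite.coe_toFinset, Set.mem_image]
        exact ⟨m, hm, rfl⟩)
    simp only [Set.Finite.mem_toFinset, Set.mem_image] at hz
    obtain ⟨m, hm, rfl⟩ := hz
    exact ⟨m, hm, hSz⟩
  have hne : ∀ m m', 2 * m ≤ e → 2 * m' ≤ e →
      closure (stratum k n e m) ⊆ closure (stratum k n e m') → m = m' := by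
    intro m m' hm hm' hsub
    have hsub' := subset_closure.trans hsub
    rcases lt_trichotomy m m' with h | h | h
    · exact absurd hsub' (not_subset_of_lt hm' he h)
    · exact h
    · exact absurd hsub' (not_subset_of_gt hn hm h)
  ext Z
  constructor
  · intro hZ
    obtain ⟨m, hm, hZm⟩ := hirr Z hZ.1
    refine ⟨m, hm, ?_⟩
    exact (hZ.eq_of_subset (isIrreducible_closure_stratum hm he) hZm).symm
  · rintro ⟨m, hm, rfl⟩
    refine ⟨isIrreducible_closure_stratum hm he, ?_⟩
    intro S hS hmS
    obtain ⟨m', hm', hSm'⟩ := hirr S hS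
    have := hne m m' hm hm' (hmS.trans hSm')
    subst this
    exact hSm'

theorem ncard_irreducibleComponents_maps [IsAlgClosed k] [CharZero k] (hn : 1 ≤ n) (he : 1 ≤ e) :
    (irreducibleComponents (Maps k n e)).ncard = e / 2 + 1 := by
  rw [irreducibleComponents_maps hn he]
  have : {m : ℕ | 2 * m ≤ e} = (Finset.range (e / 2 + 1) : Set ℕ) := by
    ext m
    simp only [Set.mem_setOf_eq, Finset.coe_range, Set.mem_Iio]
    omega
  rw [Set.ncard_image_of_injOn, this, Set.ncard_coe_finset, Finset.card_range]
  intro m hm m' hm' heq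
  simp only [Set.mem_setOf_eq] at hm hm'
  have hsub : stratum k n e m ⊆ closure (stratum k n e m') := by
    have h : closure (stratum k n e m) = closure (stratum k n e m') := heq
    rw [← h]
    exact subset_closure
  rcases lt_trichotomy m m' with h | h | h
  · exact absurd hsub (not_subset_of_lt hm' he h)
  · exact h
  · exact absurd hsub (not_subset_of_gt hn hm h)

end

end Pool.Agent.H22.GMC
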