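import Mathlib
import Pool.Agent.H22.GMC.Components

namespace Pool.Agent.H22.GMC

universe u v w

section

open Polynomial

/-- Specialisation through a valuation. -/
theorem exists_valuation {R S L : Type*} [CommRing R] [CommRing S] [IsDomain S] [Field L]
    (φ : R →+* L) (ψ : R →+* S) (hψ : Function.Surjective ψ) (hker : ∀ r, φ r = 0 → ψ r = 0) :
    ∃ (V : ValuationSubring L) (hV : ∀ r, φ r ∈ V) (s : S →+* IsLocalRing.ResidueField V),
      Function.Injective s ∧ ∀ r, s (ψ r) = IsLocalRing.residue V ⟨φ r, hV r⟩ := by
  classical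
  let A : Subring L := φ.range
  have hsurj : Function.Surjective φ.rangeRestrict := φ.rangeRestrict_surjective
  have hker' : RingHom.ker φ.rangeRestrict ≤ RingHom.ker ψ := by
    intro r hr
    rw [RingHom.mem_ker] at hr ⊢
    apply hker
    have := congrArg Subtype.val hr
    simpa using this
  obtain ⟨ψ', hψ'⟩ : ∃ ψ' : A →+* S, ∀ r, ψ' (φ.rangeRestrict r) = ψ r :=
    ⟨(φ.rangeRestrict.liftOfSurjective hsurj) ⟨ψ, hker'⟩, fun r =>
      RingHom.liftOfRightInverse_comp_apply _ _ _ _ _⟩
  let P : Ideal A := RingHom.ker ψ'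
  have : P.IsPrime := RingHom.ker_isPrime ψ'
  obtain ⟨V, hV⟩ := (LocalSubring.ofPrime A P).exists_le_valuationSubring
  have hAV : A ≤ V.toSubring := (LocalSubring.le_ofPrime A P).trans hV.1
  have hmem : ∀ r, φ r ∈ V := fun r => hAV ⟨r, rfl⟩
  let ρ : R →+* IsLocalRing.ResidueField V :=
    (IsLocalRing.residue V).comp ((Subring.inclusion hAV).comp φ.rangeRestrict)
  have hρ : ∀ r, ρ r = IsLocalRing.residue V ⟨φ r, hmem r⟩ := fun r => rfl
  have hρ0 : ∀ r, ρ r = 0 ↔ ψ r = 0 := by
    intro r
    have h1 : φ.rangeRestrict r ∈ P ↔ ψ r = 0 := by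
      rw [← hψ' r]; exact RingHom.mem_ker
    rw [← h1]
    have hloc := hV.2
    have h2 : IsUnit (algebraMap A (LocalSubring.ofPrime A P).toSubring (φ.rangeRestrict r)) ↔
        φ.rangeRestrict r ∈ P.primeCompl :=
      IsLocalization.AtPrime.isUnit_to_map_iff _ P _
    constructor
    · intro h3
      by_contra h4
      have h5 := h2.mpr h4
      have h6 : IsUnit (Subring.inclusion hV.1
        (algebraMap A (LocalSubring.ofPrime A P).toSubring (φ.rangeRestrict r))) := h5.map _
      have h7 : IsUnit ((⟨φ r, hmem r⟩ : V)) := h6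
      rw [hρ, IsLocalRing.residue_eq_zero_iff] at h3
      exact h3 h7
    · intro h3
      rw [hρ, IsLocalRing.residue_eq_zero_iff, IsLocalRing.mem_maximalIdeal, mem_nonunits_iff]
      intro h4
      have h5 : IsUnit (Subring.inclusion hV.1
        (algebraMap A (LocalSubring.ofPrime A P).toSubring (φ.rangeRestrict r))) := h4
      have h6 := hloc.1 _ h5
      exact (h2.mp h6) h3
  have hkerρ : RingHom.ker ψ ≤ RingHom.ker ρ := by
    intro r hr
    rw [RingHom.mem_ker] at hr ⊢
    exact (hρ0 r).mpr hr
  obtain ⟨s, hs⟩ : ∃ s : S →+* IsLocalRing.ResidueField V, ∀ r, s (ψ r) = ρ r :=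
    ⟨(ψ.liftOfSurjective hψ) ⟨ρ, hkerρ⟩, fun r =>
      RingHom.liftOfRightInverse_comp_apply _ _ _ _ _⟩
  refine ⟨V, hmem, s, ?_, fun r => by rw [hs, hρ]⟩
  rw [injective_iff_map_eq_zero]
  intro z hz
  obtain ⟨r, rfl⟩ := hψ z
  rw [hs, hρ0] at hz
  exact hz

end

section

open Polynomial

/-- homogenised evaluation of a polynomial -/
def hev {R S : Type*} [CommRing R] [CommRing S] (f : R →+* S) (P : R[X]) (A B : S) : S :=
  ∑ i ∈ Finset.range (P.natDegree + 1), f (P.coeff i) * A ^ i * B ^ (P.natDegree - i)

theorem map_hev {R S T : Type*} [CommRing R] [CommRing S] [CommRing T] (f : R →+* S) (g : S →+* T)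
    (P : R[X]) (A B : S) : g (hev f P A B) = hev (g.comp f) P (g A) (g B) := by
  unfold hev
  rw [map_sum]
  apply Finset.sum_congr rfl
  intro i _
  simp [map_mul, map_pow]

theorem hev_mul {R S : Type*} [CommRing R] [CommRing S] (f : R →+* S) (P : R[X]) (A B c : S) :
    hev f P (c * A) (c * B) = c ^ P.natDegree * hev f P A B := by
  unfold hev
  rw [Finset.mul_sum]
  apply Finset.sum_congr rfl
  intro i hi
  have hi' : i ≤ P.natDegree := by
    rw [Finset.mem_range] at hi; omega
  rw [mul_pow, mul_pow]
  have : c ^ P.natDegree = c ^ i * c ^ (P.natDegree - i) := by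
    rw [← pow_add]; congr 1; omega
  rw [this]
  ring

theorem hev_one {R S : Type*} [CommRing R] [CommRing S] (f : R →+* S) (P : R[X]) (A : S) :
    hev f P A 1 = P.eval₂ f A := by
  unfold hev
  rw [Polynomial.eval₂_eq_sum_range]
  apply Finset.sum_congr rfl
  intro i _
  simp

theorem hev_of_eq {R S : Type*} [CommRing R] [CommRing S] (f : R →+* S) (P : R[X]) (A B θ : S)
    (h : B * θ = A) : hev f P A B = B ^ P.natDegree * P.eval₂ f θ := by
  rw [← hev_one, ← hev_mul, h, mul_one]

theorem hev_zero {R S : Type*} [CommRing R] [CommRing S] (f : R →+* S) (P : R[X]) (A : S) :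
    hev f P A 0 = f P.leadingCoeff * A ^ P.natDegree := by
  unfold hev
  rw [Finset.sum_eq_single P.natDegree]
  · simp
  · intro i hi hne
    have hi' : i ≤ P.natDegree := by
      rw [Finset.mem_range] at hi; omega
    rw [zero_pow (by omega), mul_zero]
  · simp

theorem dvd_hev {R S : Type*} [CommRing R] [CommRing S] (f : R →+* S) (P : R[X]) (A B : S)
    (h : hev f P A B = 0) : B ∣ f P.leadingCoeff * A ^ P.natDegree := by
  unfold hev at h
  rw [Finset.sum_range_succ, Nat.sub_self, pow_zero, mul_one] at h
  have : f P.leadingCoeff * A ^ P.natDegree = -∑ i ∈ Finset.range P.natDegree,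
      f (P.coeff i) * A ^ i * B ^ (P.natDegree - i) := by
    rw [Polynomial.leadingCoeff]
    linear_combination h
  rw [this, dvd_neg]
  apply Finset.dvd_sum
  intro i hi
  rw [Finset.mem_range] at hi
  exact Dvd.dvd.mul_left (dvd_pow_self B (by omega)) _

theorem exists_scale {L : Type*} [Field L] (V : ValuationSubring L) (A0 B0 : L[X]) (hB : B0 ≠ 0) :
    ∃ (l : L) (A B : Polynomial V), l ≠ 0 ∧ A.map V.subtype = C l * A0 ∧ B.map V.subtype = C l * B0 ∧
      (A.map (IsLocalRing.residue V) ≠ 0 ∨ B.map (IsLocalRing.residue V) ≠ 0) := by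
  classical
  set T : Finset L := A0.coeffs ∪ B0.coeffs with hT
  have hne : T.Nonempty := by
    refine ⟨B0.leadingCoeff, ?_⟩
    rw [hT, Finset.mem_union]
    right
    exact Polynomial.coeff_mem_coeffs (Polynomial.leadingCoeff_ne_zero.mpr hB)
  obtain ⟨μ, hμT, hμ⟩ := Finset.exists_max_image T V.valuation hne
  have hμ0 : μ ≠ 0 := by
    rintro rfl
    have h1 := hμ B0.leadingCoeff (by
      rw [hT, Finset.mem_union]
      right
      exact Polynomial.coeff_mem_coeffs (Polynomial.leadingCoeff_ne_zero.mpr hB))
    rw [map_zero, le_zero_iff, map_eq_zero] at h1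
    exact hB (Polynomial.leadingCoeff_eq_zero.mp h1)
  have hmem : ∀ x ∈ T, μ⁻¹ * x ∈ V := by
    intro x hx
    rw [← V.valuation_le_one_iff, map_mul, map_inv₀]
    have hpos : V.valuation μ ≠ 0 := (_root_.map_ne_zero _).mpr hμ0
    calc (V.valuation μ)⁻¹ * V.valuation x ≤ (V.valuation μ)⁻¹ * V.valuation μ := by
          gcongr; exact hμ x hx
      _ = 1 := inv_mul_cancel₀ hpos
  have hlift : ∀ Q : L[X], Q.coeffs ⊆ T → ∃ Q' : Polynomial V, Q'.map V.subtype = C μ⁻¹ * Q := by
    intro Q hQ
    rw [← Polynomial.mem_lifts, Polynomial.lifts_iff_coeff_lifts]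
    intro i
    rw [Polynomial.coeff_C_mul]
    by_cases h0 : Q.coeff i = 0
    · exact ⟨0, by rw [h0]; simp⟩
    · exact ⟨⟨μ⁻¹ * Q.coeff i, hmem _ (hQ (Polynomial.coeff_mem_coeffs h0))⟩, rfl⟩
  obtain ⟨A, hA⟩ := hlift A0 (by rw [hT]; exact Finset.subset_union_left)
  obtain ⟨B, hB'⟩ := hlift B0 (by rw [hT]; exact Finset.subset_union_right)
  refine ⟨μ⁻¹, A, B, inv_ne_zero hμ0, hA, hB', ?_⟩
  have hcoef : ∀ (Q : L[X]) (Q' : Polynomial V), Q'.map V.subtype = C μ⁻¹ * Q → μ ∈ Q.coeffs →
      Q'.map (IsLocalRing.residue V) ≠ 0 := by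
    intro Q Q' hQ hμQ h0
    rw [Polynomial.mem_coeffs_iff] at hμQ
    obtain ⟨i, _, hi⟩ := hμQ
    have h1 : V.subtype (Q'.coeff i) = 1 := by
      rw [← Polynomial.coeff_map, hQ, Polynomial.coeff_C_mul, ← hi, inv_mul_cancel₀ hμ0]
    have h2 : Q'.coeff i = 1 := by
      apply Subtype.ext
      exact h1
    have h3 := congrArg (fun p => Polynomial.coeff p i) h0
    simp only [Polynomial.coeff_map, h2, map_one, Polynomial.coeff_zero] at h3
    exact one_ne_zero h3
  rw [hT, Finset.mem_union] at hμT
  rcases hμT with h | h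
  · exact Or.inl (hcoef A0 A hA h)
  · exact Or.inr (hcoef B0 B hB' h)

end

section

open Polynomial

/-- Newton iteration: a power series root of a polynomial over a subring, with simple reduction,
has coefficients in the subring. -/
theorem newton_coeff_mem {S K : Type*} [CommRing S] [CommRing K] (s : S →+* K)
    (Q : Polynomial (PowerSeries S)) (θ : PowerSeries K)
    (hroot : Q.eval₂ (PowerSeries.map s) θ = 0) (r : S)
    (h0 : PowerSeries.constantCoeff θ = s r)
    (hD : IsUnit ((Q.derivative.map (PowerSeries.constantCoeff (R := S))).eval r)) :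
    ∃ t : PowerSeries S, PowerSeries.map s t = θ := by
  have key : ∀ n : ℕ, ∃ z : S, s z = PowerSeries.coeff n θ := by
    intro n
    induction n using Nat.strong_induction_on with
    | _ n ih =>
      by_cases hn : n = 0
      · subst hn
        exact ⟨r, by rw [← h0, PowerSeries.coeff_zero_eq_constantCoeff]⟩
      · have ih' : ∀ i : ℕ, ∃ z : S, i < n → s z = PowerSeries.coeff i θ := by
          intro i
          by_cases hi : i < n
          · obtain ⟨z, hz⟩ := ih i hi
            exact ⟨z, fun _ => hz⟩
          · exact ⟨0, fun h => absurd h hi⟩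
        choose z hz using ih'
        -- truncated series
        let t : PowerSeries S := PowerSeries.mk (fun i => if i = 0 then r else if i < n then z i else 0)
        have ht : ∀ i, i < n → s (PowerSeries.coeff i t) = PowerSeries.coeff i θ := by
          intro i hi
          simp only [t, PowerSeries.coeff_mk]
          by_cases h0i : i = 0
          · subst h0i
            rw [if_pos rfl, ← h0, PowerSeries.coeff_zero_eq_constantCoeff]
          · rw [if_neg h0i, if_pos hi, hz i hi]
        have htn : PowerSeries.coeff n t = 0 := by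
          simp only [t, PowerSeries.coeff_mk]
          rw [if_neg hn, if_neg (lt_irrefl n)]
        obtain ⟨w, hw⟩ : (PowerSeries.X : PowerSeries K) ^ n ∣ θ - PowerSeries.map s t := by
          rw [PowerSeries.X_pow_dvd_iff]
          intro i hi
          rw [map_sub, PowerSeries.coeff_map, ht i hi, sub_self]
        have hθ : θ = PowerSeries.map s t + PowerSeries.X ^ n * w := by
          rw [← hw]; ring
        have hwn : PowerSeries.coeff n θ = PowerSeries.constantCoeff w := by
          rw [hθ, map_add, PowerSeries.coeff_map, htn, map_zero, zero_add]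
          have := PowerSeries.coeff_X_pow_mul w n 0
          rw [zero_add] at this
          rw [this, PowerSeries.coeff_zero_eq_constantCoeff]
        set Qs : Polynomial (PowerSeries K) := Q.map (PowerSeries.map s) with hQs
        obtain ⟨K2, hK2⟩ := Polynomial.binomExpansion Qs (PowerSeries.map s t)
          (PowerSeries.X ^ n * w)
        rw [← hθ, hQs, Polynomial.eval_map, hroot] at hK2
        have h1 : Polynomial.eval (PowerSeries.map s t) (Q.map (PowerSeries.map s)) =
            PowerSeries.map s (Q.eval t) := by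
          rw [Polynomial.eval_map, Polynomial.eval₂_at_apply]
        have h2 : Polynomial.eval (PowerSeries.map s t)
            (Polynomial.derivative (Q.map (PowerSeries.map s))) =
            PowerSeries.map s (Q.derivative.eval t) := by
          rw [Polynomial.derivative_map, Polynomial.eval_map, Polynomial.eval₂_at_apply]
        rw [h1, h2] at hK2
        have h3 := congrArg (PowerSeries.coeff n) hK2
        rw [map_zero, map_add, map_add, PowerSeries.coeff_map] at h3
        have h4 : PowerSeries.coeff n (PowerSeries.map s (Q.derivative.eval t) *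
            (PowerSeries.X ^ n * w)) =
            s (PowerSeries.constantCoeff (Q.derivative.eval t)) * PowerSeries.constantCoeff w := by
          have : PowerSeries.map s (Q.derivative.eval t) * (PowerSeries.X ^ n * w) =
              PowerSeries.X ^ n * (PowerSeries.map s (Q.derivative.eval t) * w) := by ring
          rw [this]
          have := PowerSeries.coeff_X_pow_mul (PowerSeries.map s (Q.derivative.eval t) * w) n 0
          rw [zero_add] at this
          rw [this, PowerSeries.coeff_zero_eq_constantCoeff, map_mul,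
            ← PowerSeries.coeff_zero_eq_constantCoeff_apply, PowerSeries.coeff_map,
            PowerSeries.coeff_zero_eq_constantCoeff_apply]
        have h5 : PowerSeries.coeff n (K2 * (PowerSeries.X ^ n * w) ^ 2) = 0 := by
          have : K2 * (PowerSeries.X ^ n * w) ^ 2 =
              PowerSeries.X ^ (n + n) * (K2 * w ^ 2) := by ring
          rw [this]
          apply PowerSeries.coeff_of_lt_order
          refine lt_of_lt_of_le ?_ (PowerSeries.le_order _ (n + n) ?_)
          · exact_mod_cast (by omega : n < n + n)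
          · intro i hi
            have hi' : i < n + n := by exact_mod_cast hi
            exact (PowerSeries.X_pow_dvd_iff.mp (dvd_mul_right _ _)) i hi'
        rw [h4, h5, add_zero] at h3
        have h6 : PowerSeries.constantCoeff (Q.derivative.eval t) =
            (Q.derivative.map (PowerSeries.constantCoeff (R := S))).eval r := by
          have : r = PowerSeries.constantCoeff t := by
            rw [← PowerSeries.coeff_zero_eq_constantCoeff_apply]
            simp only [t, PowerSeries.coeff_mk, if_pos]
          rw [this, Polynomial.eval_map, Polynomial.eval₂_at_apply]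
        rw [h6] at h3
        obtain ⟨D, hD'⟩ := hD
        rw [← hD'] at h3
        refine ⟨-((D⁻¹ : Sˣ) : S) * PowerSeries.coeff n (Q.eval t), ?_⟩
        rw [hwn, map_mul, map_neg]
        have h7 : s ((D⁻¹ : Sˣ) : S) * s (D : S) = 1 := by
          rw [← map_mul]; simp
        linear_combination (s ((D⁻¹ : Sˣ) : S)) * h3 + PowerSeries.constantCoeff w * h7
  choose z hz using key
  refine ⟨PowerSeries.mk z, ?_⟩
  ext n
  rw [PowerSeries.coeff_map, PowerSeries.coeff_mk, hz]

end

section

open Polynomial

variable {k : Type u} [Field k] {J : Type v}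

/-- the universal line through `a` -/
noncomputable def lineHom (a : J → k) : MvPolynomial J k →ₐ[k] Polynomial (MvPolynomial J k) :=
  MvPolynomial.aeval (fun j => Polynomial.C (MvPolynomial.C (a j)) +
    Polynomial.C (MvPolynomial.X j) * Polynomial.X)

theorem lineHom_eval_zero (a : J → k) (p : MvPolynomial J k) :
    (lineHom a p).eval 0 = MvPolynomial.C (MvPolynomial.eval a p) := by
  have : ((Polynomial.evalRingHom (0 : MvPolynomial J k)).comp
      (lineHom a : MvPolynomial J k →+* Polynomial (MvPolynomial J k))) =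
      (MvPolynomial.C).comp (MvPolynomial.eval a) := by
    apply MvPolynomial.ringHom_ext
    · intro r
      simp [lineHom]
    · intro j
      simp [lineHom]
  exact congrArg (fun f : MvPolynomial J k →+* MvPolynomial J k => f p) this

theorem exists_gcd_factor {K : Type*} [Field K] (A B : K[X]) (hB : B ≠ 0) :
    ∃ g A' B' : K[X], g ≠ 0 ∧ IsCoprime A' B' ∧ A = g * A' ∧ B = g * B' := by
  classical
  have hg : EuclideanDomain.gcd A B ≠ 0 := by
    intro h0
    exact hB (EuclideanDomain.gcd_eq_zero_iff.mp h0).2
  obtain ⟨s', hs'⟩ := EuclideanDomain.gcd_dvd_left A B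
  obtain ⟨r', hr'⟩ := EuclideanDomain.gcd_dvd_right A B
  refine ⟨EuclideanDomain.gcd A B, s', r', hg, ?_, hs', hr'⟩
  obtain ⟨x, y, hxy⟩ : ∃ x y, EuclideanDomain.gcd A B = A * x + B * y :=
    ⟨_, _, EuclideanDomain.gcd_eq_gcd_ab A B⟩
  refine ⟨x, y, ?_⟩
  apply mul_left_cancel₀ hg
  calc EuclideanDomain.gcd A B * (x * s' + y * r')
      = (EuclideanDomain.gcd A B * s') * x + (EuclideanDomain.gcd A B * r') * y := by ring
    _ = A * x + B * y := by rw [← hs', ← hr']
    _ = EuclideanDomain.gcd A B * 1 := by rw [← hxy, mul_one]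

/-- Part one: the power series root has coefficients in `k[b]`. -/
theorem special_root_series [IsAlgClosed k] {κ : Type w} [Field κ]
    (s : MvPolynomial J k →+* κ) (hs : Function.Injective s) (a : J → k)
    (P : Polynomial (MvPolynomial J k)) (hlead : MvPolynomial.eval a P.leadingCoeff ≠ 0)
    (hsep : ∀ r : k, (P.map (MvPolynomial.eval a)).eval r = 0 →
      (P.derivative.map (MvPolynomial.eval a)).eval r ≠ 0)
    (A B : κ[X]) (hB : B ≠ 0)
    (h : hev ((Polynomial.mapRingHom s).comp
      (lineHom a : MvPolynomial J k →+* Polynomial (MvPolynomial J k))) P A B = 0) :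
    ∃ (A' B' : κ[X]) (t : PowerSeries (MvPolynomial J k)), B'.coeff 0 ≠ 0 ∧
      (B' : PowerSeries κ) * PowerSeries.map s t = (A' : PowerSeries κ) ∧
      P.eval₂ ((Polynomial.coeToPowerSeries.ringHom).comp
        (lineHom a : MvPolynomial J k →+* Polynomial (MvPolynomial J k))) t = 0 := by
  set η : MvPolynomial J k →+* κ[X] := (Polynomial.mapRingHom s).comp
      (lineHom a : MvPolynomial J k →+* Polynomial (MvPolynomial J k)) with hη
  obtain ⟨g, A', B', hg, hcop, rfl, rfl⟩ := exists_gcd_factor A B hB
  have h1 : hev η P A' B' = 0 := by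
    rw [hev_mul] at h
    exact (mul_eq_zero.mp h).resolve_left (pow_ne_zero _ hg)
  have hηeval : ∀ p, (η p).eval 0 = s (MvPolynomial.C (MvPolynomial.eval a p)) := by
    intro p
    rw [hη, RingHom.comp_apply, Polynomial.coe_mapRingHom]
    have : (0 : κ) = s 0 := by simp
    rw [this, Polynomial.eval_map, Polynomial.eval₂_at_apply]
    rw [← lineHom_eval_zero]
    rfl
  have hB'0 : B'.coeff 0 ≠ 0 := by
    intro h0
    have h2 : B' ∣ η P.leadingCoeff :=
      (IsCoprime.pow_right hcop.symm).dvd_of_dvd_mul_right (dvd_hev η P A' B' h1)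
    obtain ⟨z, hz⟩ := h2
    have h3 := hηeval P.leadingCoeff
    rw [hz, Polynomial.eval_mul, ← Polynomial.coeff_zero_eq_eval_zero, h0, zero_mul] at h3
    have h4 := hs (h3.symm.trans (map_zero s).symm)
    exact hlead (MvPolynomial.C_injective _ _ (h4.trans (map_zero _).symm))
  set θ : PowerSeries κ := (B' : PowerSeries κ)⁻¹ * (A' : PowerSeries κ) with hθ
  have hcc : PowerSeries.constantCoeff (B' : PowerSeries κ) ≠ 0 := by
    rw [Polynomial.constantCoeff_coe]
    exact hB'0
  have hBθ : (B' : PowerSeries κ) * θ = (A' : PowerSeries κ) := by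
    rw [hθ, ← mul_assoc, PowerSeries.mul_inv_cancel _ hcc, one_mul]
  have hB'0' : (B' : PowerSeries κ) ≠ 0 := by
    intro h0
    rw [h0, map_zero] at hcc
    exact hcc rfl
  set ηs : MvPolynomial J k →+* PowerSeries κ :=
    (Polynomial.coeToPowerSeries.ringHom).comp η with hηs
  have h2 : P.eval₂ ηs θ = 0 := by
    have h3 : hev ηs P (A' : PowerSeries κ) (B' : PowerSeries κ) = 0 := by
      have := map_hev η (Polynomial.coeToPowerSeries.ringHom (R := κ)) P A' B'
      rw [h1, map_zero] at this
      exact this.symm
    rw [hev_of_eq _ _ _ _ θ hBθ] at h3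
    exact (mul_eq_zero.mp h3).resolve_left (pow_ne_zero _ hB'0')
  set lS : MvPolynomial J k →+* PowerSeries (MvPolynomial J k) :=
    (Polynomial.coeToPowerSeries.ringHom).comp
      (lineHom a : MvPolynomial J k →+* Polynomial (MvPolynomial J k)) with hlS
  have hcomp : (PowerSeries.map s).comp lS = ηs := by
    apply RingHom.ext
    intro p
    simp only [hlS, hηs, hη, RingHom.comp_apply, Polynomial.coeToPowerSeries.ringHom_apply,
      Polynomial.coe_mapRingHom]
    rw [Polynomial.polynomial_map_coe]
  have hcc2 : (PowerSeries.constantCoeff (R := κ)).comp ηs =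
      (s.comp MvPolynomial.C).comp (MvPolynomial.eval a) := by
    apply RingHom.ext
    intro p
    simp only [hηs, RingHom.comp_apply, Polynomial.coeToPowerSeries.ringHom_apply,
      Polynomial.constantCoeff_coe]
    rw [Polynomial.coeff_zero_eq_eval_zero, hηeval]
  have hcc3 : (PowerSeries.constantCoeff (R := MvPolynomial J k)).comp lS =
      (MvPolynomial.C).comp (MvPolynomial.eval a) := by
    apply RingHom.ext
    intro p
    simp only [hlS, RingHom.comp_apply, Polynomial.coeToPowerSeries.ringHom_apply,
      Polynomial.constantCoeff_coe]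
    rw [Polynomial.coeff_zero_eq_eval_zero]
    exact lineHom_eval_zero a p
  have h3 : ((P.map (MvPolynomial.eval a)).map (s.comp MvPolynomial.C)).IsRoot
      (PowerSeries.constantCoeff θ) := by
    rw [Polynomial.IsRoot.def, Polynomial.map_map, Polynomial.eval_map, ← hcc2,
      ← Polynomial.hom_eval₂, h2, map_zero]
  have hPa : P.map (MvPolynomial.eval a) ≠ 0 := by
    intro h0
    have := congrArg (fun q => Polynomial.coeff q P.natDegree) h0
    rw [Polynomial.coeff_map] at this
    exact hlead this
  obtain ⟨r, hr⟩ := (IsAlgClosed.splits (P.map (MvPolynomial.eval a))).mem_range_of_isRoot hPa h3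
  have hr' : (P.map (MvPolynomial.eval a)).eval r = 0 := by
    rw [Polynomial.IsRoot.def, ← hr, Polynomial.eval_map, Polynomial.eval₂_at_apply] at h3
    exact (s.comp MvPolynomial.C).injective (h3.trans (map_zero _).symm)
  have hQ : (P.map lS).eval₂ (PowerSeries.map s) θ = 0 := by
    rw [Polynomial.eval₂_map, hcomp, h2]
  obtain ⟨t, ht⟩ := newton_coeff_mem s (P.map lS) θ hQ (MvPolynomial.C r) hr.symm (by
    rw [Polynomial.derivative_map, Polynomial.map_map, hcc3, ← Polynomial.map_map,
      Polynomial.eval_map, Polynomial.eval₂_at_apply]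
    exact (IsUnit.mk0 _ (hsep r hr')).map _)
  refine ⟨A', B', t, hB'0, ?_, ?_⟩
  · rw [ht, hBθ]
  · have hinj : Function.Injective (PowerSeries.map s) := by
      intro x y hxy
      ext n : 1
      apply hs
      have := congrArg (PowerSeries.coeff n) hxy
      simpa [PowerSeries.coeff_map] using this
    apply hinj
    rw [map_zero, Polynomial.hom_eval₂, hcomp, ht, h2]

end

section

open Polynomial

/-- apply a function to the coefficients of a polynomial -/
theorem exists_coeff_map {R S : Type*} [Semiring R] [Semiring S] (l : R → S) (hl : l 0 = 0)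
    (p : R[X]) : ∃ q : S[X], ∀ i, q.coeff i = l (p.coeff i) := by
  refine ⟨∑ i ∈ Finset.range (p.natDegree + 1), Polynomial.monomial i (l (p.coeff i)), ?_⟩
  intro i
  rw [Polynomial.finsetSum_coeff]
  simp only [Polynomial.coeff_monomial]
  rw [Finset.sum_ite_eq']
  split_ifs with h
  · rfl
  · rw [Finset.mem_range, not_lt] at h
    rw [Polynomial.coeff_eq_zero_of_natDegree_lt (by omega), hl]

variable {k : Type u} [Field k] {J : Type v}

theorem special_root_rational [Infinite k] {κ : Type w} [Field κ]
    (s : MvPolynomial J k →+* κ) (hs : Function.Injective s)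
    (A' B' : κ[X]) (t : PowerSeries (MvPolynomial J k)) (hB' : B'.coeff 0 ≠ 0)
    (hBt : (B' : PowerSeries κ) * PowerSeries.map s t = (A' : PowerSeries κ)) :
    ∃ (A3 B3 : Polynomial (MvPolynomial J k)), B3 ≠ 0 ∧
      (B3 : PowerSeries (MvPolynomial J k)) * t = (A3 : PowerSeries (MvPolynomial J k)) := by
  let K := FractionRing (MvPolynomial J k)
  let σ : K →+* κ := IsFractionRing.lift hs
  let : Algebra K κ := σ.toAlgebra
  have hσ : ∀ p : MvPolynomial J k, algebraMap K κ (algebraMap (MvPolynomial J k) K p) = s p := by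
    intro p
    exact IsFractionRing.lift_algebraMap hs p
  obtain ⟨l, hl⟩ : ∃ l : κ →ₗ[K] K, l (B'.coeff 0) = 1 := by
    have hker : LinearMap.ker (LinearMap.toSpanSingleton K κ (B'.coeff 0)) = ⊥ := by
      rw [LinearMap.ker_eq_bot']
      intro z hz
      rw [LinearMap.toSpanSingleton_apply] at hz
      exact (smul_eq_zero.mp hz).resolve_right hB'
    obtain ⟨l, hl⟩ := (LinearMap.toSpanSingleton K κ (B'.coeff 0)).exists_leftInverse_of_injective hker
    refine ⟨l, ?_⟩
    have := congrArg (fun f => f (1 : K)) hl
    simpa [LinearMap.toSpanSingleton_apply] using this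
  obtain ⟨A2, hA2⟩ := exists_coeff_map (fun x => l x) (map_zero l) A'
  obtain ⟨B2, hB2⟩ := exists_coeff_map (fun x => l x) (map_zero l) B'
  set tK : PowerSeries K := PowerSeries.map (algebraMap (MvPolynomial J k) K) t with htK
  have h1 : (B2 : PowerSeries K) * tK = (A2 : PowerSeries K) := by
    ext n
    rw [PowerSeries.coeff_mul, Polynomial.coeff_coe, hA2]
    have h2 := congrArg (PowerSeries.coeff n) hBt
    rw [PowerSeries.coeff_mul, Polynomial.coeff_coe] at h2
    rw [← h2, map_sum]
    apply Finset.sum_congr rfl
    intro x _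
    rw [Polynomial.coeff_coe, Polynomial.coeff_coe, hB2, htK, PowerSeries.coeff_map,
      PowerSeries.coeff_map, ← hσ]
    have h3 : B'.coeff x.1 * (algebraMap K κ) ((algebraMap (MvPolynomial J k) K)
        ((PowerSeries.coeff x.2) t)) =
        ((algebraMap (MvPolynomial J k) K) ((PowerSeries.coeff x.2) t)) • B'.coeff x.1 := by
      rw [Algebra.smul_def, mul_comm]
    rw [h3, map_smul, smul_eq_mul, mul_comm]
  have hB2' : B2 ≠ 0 := by
    intro h0
    have := hB2 0
    rw [h0, hl] at this
    simp at this
  obtain ⟨bA, hbA, hA3⟩ := IsLocalization.integerNormalization_spec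
    (nonZeroDivisors (MvPolynomial J k)) (S := K) A2
  obtain ⟨bB, hbB, hB3⟩ := IsLocalization.integerNormalization_spec
    (nonZeroDivisors (MvPolynomial J k)) (S := K) B2
  set A3 := IsLocalization.integerNormalization (nonZeroDivisors (MvPolynomial J k)) A2
  set B3 := IsLocalization.integerNormalization (nonZeroDivisors (MvPolynomial J k)) B2
  have hsm : ∀ (b : MvPolynomial J k) (q : K[X]), b • q =
      Polynomial.C (algebraMap (MvPolynomial J k) K b) * q := by
    intro b q
    ext i
    rw [Polynomial.coeff_smul, Polynomial.coeff_C_mul, Algebra.smul_def]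
  rw [hsm] at hA3 hB3
  have hbA0 : bA ≠ 0 := nonZeroDivisors.ne_zero hbA
  have hbB0 : bB ≠ 0 := nonZeroDivisors.ne_zero hbB
  have hinj : Function.Injective (algebraMap (MvPolynomial J k) K) := IsFractionRing.injective _ _
  refine ⟨Polynomial.C bB * A3, Polynomial.C bA * B3, ?_, ?_⟩
  · intro h0
    have h2 := congrArg (Polynomial.map (algebraMap (MvPolynomial J k) K)) h0
    rw [Polynomial.map_mul, hB3, Polynomial.map_C, Polynomial.map_zero] at h2
    rcases mul_eq_zero.mp h2 with h3 | h3
    · rw [Polynomial.C_eq_zero] at h3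
      exact hbA0 (hinj (h3.trans (map_zero _).symm))
    · rcases mul_eq_zero.mp h3 with h3 | h3
      · rw [Polynomial.C_eq_zero] at h3
        exact hbB0 (hinj (h3.trans (map_zero _).symm))
      · exact hB2' h3
  · have hinjP : Function.Injective (PowerSeries.map (algebraMap (MvPolynomial J k) K)) := by
      intro x y hxy
      ext n : 1
      apply hinj
      have := congrArg (PowerSeries.coeff n) hxy
      simpa [PowerSeries.coeff_map] using this
    apply hinjP
    rw [map_mul, ← Polynomial.polynomial_map_coe, ← Polynomial.polynomial_map_coe,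
      Polynomial.map_mul, Polynomial.map_mul, hA3, hB3, Polynomial.map_C, Polynomial.map_C]
    simp only [Polynomial.coe_mul]
    rw [← h1]
    ring

end

section

open Polynomial

variable {k : Type u} [Field k] {J : Type v}

theorem special_root [IsAlgClosed k] {κ : Type w} [Field κ]
    (s : MvPolynomial J k →+* κ) (hs : Function.Injective s) (a : J → k)
    (P : Polynomial (MvPolynomial J k)) (hlead : MvPolynomial.eval a P.leadingCoeff ≠ 0)
    (hsep : ∀ r : k, (P.map (MvPolynomial.eval a)).eval r = 0 →
      (P.derivative.map (MvPolynomial.eval a)).eval r ≠ 0)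
    (A B : κ[X]) (hB : B ≠ 0)
    (h : hev ((Polynomial.mapRingHom s).comp
      (lineHom a : MvPolynomial J k →+* Polynomial (MvPolynomial J k))) P A B = 0) :
    ∃ A4 B4 : MvPolynomial J k, B4 ≠ 0 ∧ hev (RingHom.id (MvPolynomial J k)) P A4 B4 = 0 := by
  have hinf : Infinite k := IsAlgClosed.instInfinite
  obtain ⟨A', B', t, hB', hBt, hPt⟩ := special_root_series s hs a P hlead hsep A B hB h
  obtain ⟨A3, B3, hB3, hBt3⟩ := special_root_rational s hs A' B' t hB' hBt
  have h1 : hev (lineHom a : MvPolynomial J k →+* Polynomial (MvPolynomial J k)) P A3 B3 = 0 := by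
    apply Polynomial.coe_injective
    rw [← Polynomial.coeToPowerSeries.ringHom_apply, ← Polynomial.coeToPowerSeries.ringHom_apply,
      map_hev, map_zero, Polynomial.coeToPowerSeries.ringHom_apply,
      Polynomial.coeToPowerSeries.ringHom_apply, hev_of_eq _ _ _ _ t hBt3, hPt, mul_zero]
  -- choose the parameter
  obtain ⟨τ, hτ0, hτ⟩ : ∃ τ : k, τ ≠ 0 ∧ B3.eval (MvPolynomial.C τ) ≠ 0 := by
    by_contra hcon
    push Not at hcon
    have : (B3 * Polynomial.X) = 0 := by
      apply Polynomial.eq_zero_of_infinite_isRoot
      apply Set.Infinite.mono (s := Set.range (MvPolynomial.C : k → MvPolynomial J k))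
      · rintro _ ⟨τ, rfl⟩
        change Polynomial.eval _ _ = 0
        rw [Polynomial.eval_mul, Polynomial.eval_X]
        by_cases h0 : τ = 0
        · rw [h0, map_zero, mul_zero]
        · rw [hcon τ h0, zero_mul]
      · exact Set.infinite_range_of_injective (MvPolynomial.C_injective J k)
    rcases mul_eq_zero.mp this with h2 | h2
    · exact hB3 h2
    · exact Polynomial.X_ne_zero h2
  let sub : MvPolynomial J k →ₐ[k] MvPolynomial J k :=
    MvPolynomial.aeval (fun j => (MvPolynomial.X j - MvPolynomial.C (a j)) * MvPolynomial.C τ⁻¹)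
  let sub' : MvPolynomial J k →ₐ[k] MvPolynomial J k :=
    MvPolynomial.aeval (fun j => MvPolynomial.X j * MvPolynomial.C τ + MvPolynomial.C (a j))
  have hCC : (MvPolynomial.C τ⁻¹ : MvPolynomial J k) * MvPolynomial.C τ = 1 := by
    rw [← map_mul, inv_mul_cancel₀ hτ0, map_one]
  have hsub : ∀ z, sub' (sub z) = z := by
    intro z
    have : sub'.comp sub = AlgHom.id k _ := by
      apply MvPolynomial.algHom_ext
      intro j
      simp only [sub, sub', AlgHom.comp_apply, MvPolynomial.aeval_X, map_mul, map_sub,
        MvPolynomial.algHom_C, MvPolynomial.algebraMap_eq, AlgHom.id_apply]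
      linear_combination (MvPolynomial.X j) * hCC
    calc sub' (sub z) = (sub'.comp sub) z := rfl
      _ = z := by rw [this]; rfl
  let Ξ : Polynomial (MvPolynomial J k) →+* MvPolynomial J k :=
    (sub : MvPolynomial J k →+* MvPolynomial J k).comp (Polynomial.evalRingHom (MvPolynomial.C τ))
  have hΞ : Ξ.comp (lineHom a : MvPolynomial J k →+* Polynomial (MvPolynomial J k)) =
      RingHom.id _ := by
    apply MvPolynomial.ringHom_ext
    · intro r
      simp only [Ξ, sub, lineHom, RingHom.comp_apply, RingHom.coe_coe, MvPolynomial.algHom_C,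
        RingHom.id_apply]
      rw [IsScalarTower.algebraMap_apply k (MvPolynomial J k) (Polynomial (MvPolynomial J k))]
      rw [Polynomial.algebraMap_eq, Polynomial.coe_evalRingHom, Polynomial.eval_C]
      simp
    · intro j
      simp only [Ξ, sub, lineHom, RingHom.comp_apply, RingHom.coe_coe, MvPolynomial.aeval_X,
        Polynomial.coe_evalRingHom, Polynomial.eval_add, Polynomial.eval_C, Polynomial.eval_mul,
        Polynomial.eval_X, map_add, map_mul, MvPolynomial.algHom_C, MvPolynomial.algebraMap_eq,
        RingHom.id_apply]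
      linear_combination (MvPolynomial.X j - MvPolynomial.C (a j)) * hCC
  refine ⟨Ξ A3, Ξ B3, ?_, ?_⟩
  · intro h0
    have h2 : sub (B3.eval (MvPolynomial.C τ)) = 0 := h0
    have h3 := hsub (B3.eval (MvPolynomial.C τ))
    rw [h2, map_zero] at h3
    exact hτ h3.symm
  · rw [← hΞ, ← map_hev, h1, map_zero]

end

section

open Polynomial

/-- The coordinate functions of the cone pulled back to the curve `c`. -/
noncomputable def coordFun {n e : ℕ} {L : Type*} [Field L] (c : Idx n e → L) :
    Option (Fin n) → RatFunc L :=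
  fun a => algebraMap L[X] (RatFunc L) (form c (crd n a)) /
    algebraMap L[X] (RatFunc L) (form c (some (0, 0)))

variable {k : Type u} [Field k] {n e : ℕ}

/-- `c` is a generic point of `M`. -/
def IsGenericPoint (M : Set (Maps k n e)) {L : Type*} [Field L] [Algebra k L]
    (c : Idx n e → L) : Prop :=
  ∀ p : MvPolynomial (Idx n e) k, MvPolynomial.aeval c p = 0 ↔
    ∀ x ∈ M, MvPolynomial.eval x.coeffs p = 0

section special

variable (a : Option (Fin n) → k)

noncomputable def specialPar (m e : ℕ) : Par n e m → MvPolynomial (Option (Fin n)) k :=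
  mkPar (Fin.cons 1 (fun i => lineHom a (MvPolynomial.X (some i)))) 1
    (lineHom a (MvPolynomial.X none))

theorem lineHom_X (j : Option (Fin n)) : lineHom a (MvPolynomial.X j) =
    Polynomial.C (MvPolynomial.C (a j)) + Polynomial.C (MvPolynomial.X j) * Polynomial.X := by
  simp [lineHom]

theorem natDegree_lineHom_X_le (j : Option (Fin n)) :
    (lineHom a (MvPolynomial.X j)).natDegree ≤ 1 := by
  rw [lineHom_X]
  compute_degree

theorem coeff_one_lineHom_X (j : Option (Fin n)) :
    (lineHom a (MvPolynomial.X j)).coeff 1 = MvPolynomial.X j := by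
  rw [lineHom_X]
  simp [Polynomial.coeff_C]

variable {m : ℕ} (hm : 2 * m ≤ e) (hm1 : 1 ≤ m)

include hm hm1

theorem pf_specialPar (i : Fin (n + 1)) : pf (specialPar a m e) i =
    (Fin.cons 1 (fun i => lineHom a (MvPolynomial.X (some i))) :
      Fin (n + 1) → Polynomial (MvPolynomial (Option (Fin n)) k)) i := by
  unfold specialPar
  apply pf_mkPar
  refine Fin.cases ?_ (fun i => ?_) i
  · simp
  · simp only [Fin.cons_succ]
    exact (natDegree_lineHom_X_le a _).trans hm1

theorem form_special_zero : form (Phi (specialPar a m e)) (some (0, 0)) = 1 := by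
  rw [form_Phi_some hm, pf_specialPar a hm hm1]
  have : ph (specialPar a m e) = 1 := ph_mkPar _ _ _ (by simp)
  rw [this]
  simp

theorem form_special_crd (j : Option (Fin n)) :
    form (Phi (specialPar a m e)) (crd n j) = lineHom a (MvPolynomial.X j) := by
  rcases j with _ | i
  · simp only [crd, Option.elim_none]
    rw [form_Phi_none]
    exact pg_mkPar _ _ _ ((natDegree_lineHom_X_le a _).trans (by omega))
  · simp only [crd, Option.elim_some]
    rw [form_Phi_some hm, pf_specialPar a hm hm1, pf_specialPar a hm hm1]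
    have : ph (specialPar a m e) = 1 := ph_mkPar _ _ _ (by simp)
    rw [this]
    simp

theorem special_surjective : Function.Surjective
    (MvPolynomial.aeval (Phi (specialPar a m e)) :
      MvPolynomial (Idx n e) k →ₐ[k] MvPolynomial (Option (Fin n)) k) := by
  rw [← AlgHom.range_eq_top, eq_top_iff, ← MvPolynomial.adjoin_range_X]
  apply Algebra.adjoin_le
  rintro _ ⟨j, rfl⟩
  have he : 1 < e + 1 := by omega
  refine ⟨MvPolynomial.X (crd n j, ⟨1, he⟩), ?_⟩
  rw [AlgHom.toRingHom_eq_coe, RingHom.coe_coe, MvPolynomial.aeval_X]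
  have h1 := coeff_form (Phi (specialPar a m e)) (crd n j) ⟨1, he⟩
  rw [form_special_crd a hm hm1] at h1
  rw [← h1]
  exact coeff_one_lineHom_X a j

end special

theorem relation_special {m : ℕ} [Infinite k] (hm : 2 * m ≤ e) (hm1 : 1 ≤ m)
    {L : Type w} [Field L] [Algebra k L] (c : Idx n e → L)
    (hc : IsGenericPoint (closure (stratum k n e m)) c)
    (P : Polynomial (MvPolynomial (Option (Fin n)) k)) (θ : RatFunc L)
    (hθ : P.eval₂ (MvPolynomial.aeval (coordFun c) :
      MvPolynomial (Option (Fin n)) k →ₐ[k] RatFunc L).toRingHom θ = 0)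
    (a : Option (Fin n) → k) (hlead : MvPolynomial.eval a P.leadingCoeff ≠ 0) :
    ∃ (κ : Type w) (_ : Field κ) (s : MvPolynomial (Option (Fin n)) k →+* κ)
      (_ : Function.Injective s) (A B : κ[X]), B ≠ 0 ∧
      hev ((Polynomial.mapRingHom s).comp (lineHom a : MvPolynomial (Option (Fin n)) k →+*
        Polynomial (MvPolynomial (Option (Fin n)) k))) P A B = 0 := by
  have he : 1 ≤ e := by omega
  set S0 := MvPolynomial (Option (Fin n)) k with hS0
  let cs : Idx n e → S0 := Phi (specialPar a m e)
  have hker : ∀ r : MvPolynomial (Idx n e) k,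
      (MvPolynomial.aeval c : MvPolynomial (Idx n e) k →ₐ[k] L).toRingHom r = 0 →
      (MvPolynomial.aeval cs : MvPolynomial (Idx n e) k →ₐ[k] S0).toRingHom r = 0 := by
    intro r hr
    have h1 : r ∈ idealOf (closure (stratum k n e m)) := by
      rw [mem_idealOf]
      exact (hc r).mp hr
    rw [idealOf_closure, idealOf_stratum hm he] at h1
    have h2 := aeval_PhiStar (k := k) (specialPar a m e) r
    rw [h1, map_zero] at h2
    exact h2.symm
  obtain ⟨V, hV, s, hs, hsV⟩ := exists_valuation
    (MvPolynomial.aeval c : MvPolynomial (Idx n e) k →ₐ[k] L).toRingHom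
    (MvPolynomial.aeval cs : MvPolynomial (Idx n e) k →ₐ[k] S0).toRingHom
    (special_surjective a hm hm1) hker
  -- coefficients in the valuation ring
  have hcV : ∀ i, c i ∈ V := by
    intro i
    have := hV (MvPolynomial.X i)
    simpa using this
  have hkV : ∀ r : k, algebraMap k L r ∈ V := by
    intro r
    have := hV (MvPolynomial.C r)
    simpa using this
  let cV : Idx n e → V := fun i => ⟨c i, hcV i⟩
  let kV : k →+* V := (algebraMap k L).codRestrict V.toSubring hkV
  have hres : ∀ i, IsLocalRing.residue V (cV i) = s (cs i) := by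
    intro i
    have := hsV (MvPolynomial.X i)
    simp only [AlgHom.toRingHom_eq_coe, RingHom.coe_coe, MvPolynomial.aeval_X] at this
    exact this.symm
  have hresk : ∀ r, IsLocalRing.residue V (kV r) = s (MvPolynomial.C r) := by
    intro r
    have := hsV (MvPolynomial.C r)
    simp only [AlgHom.toRingHom_eq_coe, RingHom.coe_coe, MvPolynomial.algHom_C] at this
    exact this.symm
  have hformV : ∀ b, (form cV b).map V.subtype = form c b := by
    intro b
    rw [form_map]
    rfl
  have hformres : ∀ b, (form cV b).map (IsLocalRing.residue V) = (form cs b).map s := by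
    intro b
    rw [form_map, form_map]
    congr 1
    funext i
    exact hres i
  set q : Polynomial V := form cV (some (0, 0)) with hq
  have hqres : q.map (IsLocalRing.residue V) = 1 := by
    rw [hq, hformres]
    have : form cs (some (0, 0)) = 1 := form_special_zero a hm hm1
    rw [this, Polynomial.map_one]
  let iL : Polynomial V →+* RatFunc L :=
    (algebraMap L[X] (RatFunc L)).comp (Polynomial.mapRingHom V.subtype)
  have hiL : Function.Injective iL := by
    apply (IsFractionRing.injective L[X] (RatFunc L)).comp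
    exact Polynomial.map_injective _ Subtype.val_injective
  have hq0 : iL q ≠ 0 := by
    intro h0
    have h1 : q = 0 := hiL (h0.trans (map_zero _).symm)
    rw [h1, Polynomial.map_zero] at hqres
    exact zero_ne_one hqres
  let Tq := Localization.Away q
  let α : Tq →+* RatFunc L := IsLocalization.Away.lift q (g := iL) (IsUnit.mk0 _ hq0)
  let β : Tq →+* (IsLocalRing.ResidueField V)[X] :=
    IsLocalization.Away.lift q (g := Polynomial.mapRingHom (IsLocalRing.residue V)) (by
      rw [Polynomial.coe_mapRingHom, hqres]; exact isUnit_one)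
  have hα : ∀ z : Polynomial V, α (algebraMap _ Tq z) = iL z :=
    fun z => IsLocalization.Away.lift_eq _ _ _
  have hβ : ∀ z : Polynomial V, β (algebraMap _ Tq z) = z.map (IsLocalRing.residue V) :=
    fun z => IsLocalization.Away.lift_eq _ _ _
  have hαinj : Function.Injective α := by
    rw [injective_iff_map_eq_zero]
    intro z hz
    obtain ⟨⟨x, y⟩, hxy⟩ := IsLocalization.surj (Submonoid.powers q) z
    have h1 := congrArg α hxy
    rw [map_mul, hz, zero_mul, hα] at h1
    have h2 : x = 0 := hiL (h1.symm.trans (map_zero _).symm)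
    simp only [h2, map_zero] at hxy
    have hy : IsUnit (algebraMap (Polynomial V) Tq y) := IsLocalization.map_units Tq y
    exact (hy.mul_left_eq_zero).mp hxy
  have hqinv : algebraMap (Polynomial V) Tq q * IsLocalization.Away.invSelf q = 1 :=
    IsLocalization.Away.mul_invSelf q
  let yq : Option (Fin n) → Tq := fun j =>
    algebraMap (Polynomial V) Tq (form cV (crd n j)) * IsLocalization.Away.invSelf q
  let γ : S0 →+* Tq := MvPolynomial.eval₂Hom
    ((algebraMap (Polynomial V) Tq).comp (Polynomial.C.comp kV)) yq
  have hαγ : α.comp γ = (MvPolynomial.aeval (coordFun c) : S0 →ₐ[k] RatFunc L).toRingHom := by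
    apply MvPolynomial.ringHom_ext
    · intro r
      simp only [γ, RingHom.comp_apply, MvPolynomial.coe_eval₂Hom, MvPolynomial.eval₂_C]
      rw [hα]
      simp only [iL, RingHom.comp_apply, Polynomial.coe_mapRingHom, Polynomial.map_C,
        AlgHom.toRingHom_eq_coe, RingHom.coe_coe, MvPolynomial.algHom_C]
      rw [IsScalarTower.algebraMap_apply k L[X] (RatFunc L)]
      rfl
    · intro j
      simp only [γ, RingHom.comp_apply, MvPolynomial.coe_eval₂Hom, MvPolynomial.eval₂_X, yq]
      rw [map_mul, hα]
      simp only [AlgHom.toRingHom_eq_coe, RingHom.coe_coe, MvPolynomial.aeval_X, coordFun]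
      rw [eq_div_iff]
      · have h1 := congrArg α hqinv
        rw [map_mul, hα, map_one] at h1
        have h2 : iL q = algebraMap L[X] (RatFunc L) (form c (some (0, 0))) := by
          simp only [iL, RingHom.comp_apply, Polynomial.coe_mapRingHom, hq, hformV]
        have h3 : iL (form cV (crd n j)) = algebraMap L[X] (RatFunc L) (form c (crd n j)) := by
          simp only [iL, RingHom.comp_apply, Polynomial.coe_mapRingHom, hformV]
        rw [← h2, ← h3]
        linear_combination (iL (form cV (crd n j))) * h1
      · have h2 : iL q = algebraMap L[X] (RatFunc L) (form c (some (0, 0))) := by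
          simp only [iL, RingHom.comp_apply, Polynomial.coe_mapRingHom, hq, hformV]
        rw [← h2]; exact hq0
  set η : S0 →+* (IsLocalRing.ResidueField V)[X] := (Polynomial.mapRingHom s).comp
    (lineHom a : S0 →+* Polynomial S0) with hη
  have hβγ : β.comp γ = η := by
    apply MvPolynomial.ringHom_ext
    · intro r
      simp only [γ, RingHom.comp_apply, MvPolynomial.coe_eval₂Hom, MvPolynomial.eval₂_C]
      rw [hβ, Polynomial.map_C, hresk]
      simp only [hη, RingHom.comp_apply, RingHom.coe_coe, MvPolynomial.algHom_C]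
      rw [IsScalarTower.algebraMap_apply k S0 (Polynomial S0), Polynomial.algebraMap_eq,
        Polynomial.coe_mapRingHom, Polynomial.map_C]
      rfl
    · intro j
      simp only [γ, RingHom.comp_apply, MvPolynomial.coe_eval₂Hom, MvPolynomial.eval₂_X, yq]
      have h1 := congrArg β hqinv
      rw [map_mul, hβ, hqres, one_mul, map_one] at h1
      rw [map_mul, hβ, h1, mul_one, hformres]
      have : form cs (crd n j) = lineHom a (MvPolynomial.X j) := form_special_crd a hm hm1 j
      rw [this]
      rfl
  -- numerator and denominator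
  obtain ⟨l, A, B, hl, hA, hB, hAB⟩ := exists_scale V θ.num θ.denom θ.denom_ne_zero
  have hrel : hev γ P (algebraMap _ Tq A) (algebraMap _ Tq B) = 0 := by
    apply hαinj
    rw [map_zero, map_hev, hαγ, hα, hα]
    have hiA : iL A = algebraMap L[X] (RatFunc L) (Polynomial.C l * θ.num) := by
      simp only [iL, RingHom.comp_apply, Polynomial.coe_mapRingHom, hA]
    have hiB : iL B = algebraMap L[X] (RatFunc L) (Polynomial.C l * θ.denom) := by
      simp only [iL, RingHom.comp_apply, Polynomial.coe_mapRingHom, hB]
    rw [hev_of_eq _ _ _ _ θ, hθ, mul_zero]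
    rw [hiA, hiB, map_mul, map_mul]
    have : θ.denom ≠ 0 := θ.denom_ne_zero
    have h1 : algebraMap L[X] (RatFunc L) θ.denom ≠ 0 := by
      intro h0
      exact this (IsFractionRing.injective L[X] (RatFunc L) (h0.trans (map_zero _).symm))
    have h2 := RatFunc.num_div_denom θ
    rw [div_eq_iff h1] at h2
    rw [h2]
    ring
  have hrel2 : hev η P (A.map (IsLocalRing.residue V)) (B.map (IsLocalRing.residue V)) = 0 := by
    rw [← hβγ, ← hβ, ← hβ, ← map_hev, hrel, map_zero]
  have hηlead : η P.leadingCoeff ≠ 0 := by
    intro h0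
    rw [hη, RingHom.comp_apply, Polynomial.coe_mapRingHom] at h0
    have h1 : (lineHom a P.leadingCoeff) = 0 := by
      apply Polynomial.map_injective s hs
      rw [Polynomial.map_zero]
      exact h0
    have h2 := lineHom_eval_zero a P.leadingCoeff
    rw [h1, Polynomial.eval_zero] at h2
    exact hlead (MvPolynomial.C_injective _ _ (h2.symm.trans (map_zero _).symm))
  refine ⟨IsLocalRing.ResidueField V, inferInstance, s, hs, A.map (IsLocalRing.residue V),
    B.map (IsLocalRing.residue V), ?_, hrel2⟩
  intro hB0
  rw [hB0, hev_zero] at hrel2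
  have hA0 := (mul_eq_zero.mp hrel2).resolve_left hηlead
  have hA1 : A.map (IsLocalRing.residue V) = 0 := by
    by_contra hne
    exact (pow_ne_zero _ hne) hA0
  rcases hAB with h | h
  · exact h hA1
  · exact h hB0

end

section

open Polynomial

/-- The function field of the cone, embedded in the function field of the curve `c`. -/
noncomputable def functionField (k : Type u) [Field k] {n e : ℕ} {L : Type u} [Field L]
    [Algebra k L] (c : Idx n e → L) : IntermediateField k (RatFunc L) :=
  IntermediateField.adjoin k (Set.range (coordFun c))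

variable {k : Type u} [Field k] {n e : ℕ}

theorem exists_eval_ne_zero' [Infinite k] {σ : Type*} (p : MvPolynomial σ k) (hp : p ≠ 0) :
    ∃ a : σ → k, MvPolynomial.eval a p ≠ 0 := by
  by_contra hcon
  push Not at hcon
  apply hp
  apply MvPolynomial.funext
  intro a
  rw [hcon a, map_zero]

theorem algebraicIndependent_coordFun {m : ℕ} [Infinite k] (hm : 2 * m ≤ e) (hm1 : 1 ≤ m)
    {L : Type w} [Field L] [Algebra k L] (c : Idx n e → L)
    (hc : IsGenericPoint (closure (stratum k n e m)) c) :
    AlgebraicIndependent k (coordFun c) := by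
  rw [algebraicIndependent_iff]
  intro p hp
  by_contra hp0
  obtain ⟨a, ha⟩ := exists_eval_ne_zero' p hp0
  obtain ⟨κ, _, s, hs, A, B, _, hrel⟩ := relation_special hm hm1 c hc (Polynomial.C p) 0 (by
    rw [Polynomial.eval₂_C]; exact hp) a (by rwa [Polynomial.leadingCoeff_C])
  unfold hev at hrel
  rw [Polynomial.natDegree_C] at hrel
  simp only [zero_add, Finset.range_one, Finset.sum_singleton, Polynomial.coeff_C_zero, pow_zero,
    mul_one, Nat.sub_zero] at hrel
  rw [RingHom.comp_apply, Polynomial.coe_mapRingHom] at hrel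
  have h1 : (lineHom a p) = 0 := by
    apply Polynomial.map_injective s hs
    rw [Polynomial.map_zero]
    exact hrel
  have h2 := lineHom_eval_zero a p
  rw [h1, Polynomial.eval_zero] at h2
  exact ha (MvPolynomial.C_injective _ _ (h2.symm.trans (map_zero _).symm))

theorem mem_functionField_of_isAlgebraic {m : ℕ} [IsAlgClosed k] [CharZero k] (hm : 2 * m ≤ e)
    (hm1 : 1 ≤ m) {L : Type u} [Field L] [Algebra k L] (c : Idx n e → L)
    (hc : IsGenericPoint (closure (stratum k n e m)) c) (θ : RatFunc L)
    (hθ : IsAlgebraic (functionField k c) θ) : θ ∈ functionField k c := by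
  have hinf : Infinite k := IsAlgClosed.instInfinite
  have hx := algebraicIndependent_coordFun hm hm1 c hc
  let S0 := MvPolynomial (Option (Fin n)) k
  let K := FractionRing S0
  let ε : K ≃ₐ[k] functionField k c := hx.aevalEquivField
  have hint : IsIntegral (functionField k c) θ := hθ.isIntegral
  set μ := minpoly (functionField k c) θ with hμ
  have hμirr : Irreducible μ := minpoly.irreducible hint
  let μK : K[X] := μ.map (ε.symm : functionField k c →+* K)
  have hμKirr : Irreducible μK :=
    (MulEquiv.irreducible_iff (Polynomial.mapEquiv (ε.symm.toRingEquiv)) (x := μ)).mpr hμirr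
  obtain ⟨b, hb, hPb⟩ := IsLocalization.integerNormalization_spec (nonZeroDivisors S0) (S := K) μK
  set P := IsLocalization.integerNormalization (nonZeroDivisors S0) μK
  have hsm : ∀ (b : S0) (q : K[X]), b • q = Polynomial.C (algebraMap S0 K b) * q := by
    intro b q
    ext i
    rw [Polynomial.coeff_smul, Polynomial.coeff_C_mul, Algebra.smul_def]
  rw [hsm] at hPb
  have hinj : Function.Injective (algebraMap S0 K) := IsFractionRing.injective _ _
  have hb0 : b ≠ 0 := nonZeroDivisors.ne_zero hb
  have hb0' : algebraMap S0 K b ≠ 0 := fun h => hb0 (hinj (h.trans (map_zero _).symm))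
  have hP0 : P ≠ 0 := by
    intro h0
    rw [h0, Polynomial.map_zero] at hPb
    rcases mul_eq_zero.mp hPb.symm with h | h
    · rw [Polynomial.C_eq_zero] at h; exact hb0' h
    · exact hμKirr.ne_zero h
  -- the relation
  have hcompε : ((functionField k c).val.toRingHom.comp (ε : K →+* functionField k c)).comp
      (algebraMap S0 K) = (MvPolynomial.aeval (coordFun c) : S0 →ₐ[k] RatFunc L).toRingHom := by
    apply RingHom.ext
    intro p
    exact hx.aevalEquivField_algebraMap_apply_coe p
  have hεμ : (ε : K →+* functionField k c).comp (ε.symm : functionField k c →+* K) =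
      RingHom.id _ := by
    apply RingHom.ext
    intro z
    exact ε.apply_symm_apply z
  have hPθ : P.eval₂ (MvPolynomial.aeval (coordFun c) : S0 →ₐ[k] RatFunc L).toRingHom θ = 0 := by
    rw [← hcompε, ← Polynomial.eval₂_map, hPb, Polynomial.eval₂_mul]
    have : μK.eval₂ ((functionField k c).val.toRingHom.comp (ε : K →+* functionField k c)) θ =
        0 := by
      simp only [μK]
      rw [Polynomial.eval₂_map, RingHom.comp_assoc, hεμ, RingHom.comp_id]
      have := minpoly.aeval (functionField k c) θ
      rw [Polynomial.aeval_def] at this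
      exact this
    rw [this, mul_zero]
  -- separability
  have hsepK : μK.Separable := hμKirr.separable
  obtain ⟨u, v, huv⟩ := hsepK
  obtain ⟨bu, hbu, hu⟩ := IsLocalization.integerNormalization_spec (nonZeroDivisors S0) (S := K) u
  obtain ⟨bv, hbv, hv⟩ := IsLocalization.integerNormalization_spec (nonZeroDivisors S0) (S := K) v
  set u1 := IsLocalization.integerNormalization (nonZeroDivisors S0) u
  set v1 := IsLocalization.integerNormalization (nonZeroDivisors S0) v
  rw [hsm] at hu hv
  have hd : (Polynomial.C bv * u1) * P + (Polynomial.C bu * v1) * P.derivative =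
      Polynomial.C (bu * bv * b) := by
    apply Polynomial.map_injective _ hinj
    rw [Polynomial.map_add, Polynomial.map_mul, Polynomial.map_mul, Polynomial.map_mul,
      Polynomial.map_mul, ← Polynomial.derivative_map, hu, hv, hPb, Polynomial.map_C,
      Polynomial.map_C, Polynomial.map_C, Polynomial.derivative_C_mul, map_mul, Polynomial.C_mul,
      map_mul, Polynomial.C_mul]
    linear_combination (Polynomial.C (algebraMap S0 K bu) * Polynomial.C (algebraMap S0 K bv) *
      Polynomial.C (algebraMap S0 K b)) * huv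
  have hd0 : bu * bv * b ≠ 0 :=
    mul_ne_zero (mul_ne_zero (nonZeroDivisors.ne_zero hbu) (nonZeroDivisors.ne_zero hbv)) hb0
  obtain ⟨a, ha⟩ := exists_eval_ne_zero' (P.leadingCoeff * (bu * bv * b))
    (mul_ne_zero (Polynomial.leadingCoeff_ne_zero.mpr hP0) hd0)
  rw [map_mul] at ha
  have ha1 : MvPolynomial.eval a P.leadingCoeff ≠ 0 := left_ne_zero_of_mul ha
  have ha2 : MvPolynomial.eval a (bu * bv * b) ≠ 0 := right_ne_zero_of_mul ha
  have hsep : ∀ r : k, (P.map (MvPolynomial.eval a)).eval r = 0 →
      (P.derivative.map (MvPolynomial.eval a)).eval r ≠ 0 := by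
    intro r hr hr'
    have h1 := congrArg (fun q => (q.map (MvPolynomial.eval a)).eval r) hd
    simp only [Polynomial.map_add, Polynomial.map_mul, Polynomial.eval_add, Polynomial.eval_mul,
      Polynomial.map_C, Polynomial.eval_C] at h1
    rw [hr, hr', mul_zero, mul_zero, add_zero] at h1
    exact ha2 h1.symm
  obtain ⟨κ, _, s, hs, A, B, hB, hrel⟩ := relation_special hm hm1 c hc P θ hPθ a ha1
  obtain ⟨A4, B4, hB4, hrel4⟩ := special_root s hs a P ha1 hsep A B hB hrel
  have hB4' : algebraMap S0 K B4 ≠ 0 := fun h => hB4 (hinj (h.trans (map_zero _).symm))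
  set ρ : K := algebraMap S0 K A4 / algebraMap S0 K B4 with hρ
  have h1 : hev (algebraMap S0 K) P (algebraMap S0 K A4) (algebraMap S0 K B4) = 0 := by
    have := map_hev (RingHom.id S0) (algebraMap S0 K) P A4 B4
    rw [hrel4, map_zero, RingHom.comp_id] at this
    exact this.symm
  rw [hev_of_eq _ _ _ _ ρ (by rw [hρ, mul_comm, div_mul_cancel₀ _ hB4'])] at h1
  have h2 := (mul_eq_zero.mp h1).resolve_left (pow_ne_zero _ hB4')
  have h3 : μK.IsRoot ρ := by
    rw [← Polynomial.eval_map, hPb, Polynomial.eval_mul, Polynomial.eval_C] at h2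
    exact (mul_eq_zero.mp h2).resolve_left hb0'
  have h4 := Polynomial.degree_eq_one_of_irreducible_of_root hμKirr h3
  have h5 : μ.degree = 1 := by
    rw [← h4]
    exact (Polynomial.degree_map _ _).symm
  obtain ⟨z, hz⟩ := minpoly.mem_range_of_degree_eq_one _ _ h5
  rw [← hz]
  exact z.2

end

end Pool.Agent.H22.GMC
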