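import Mathlib
import Pool.Agent.H22.GMC.Liftability

namespace Pool.Agent.H22.GMC

universe u v w

open Polynomial

variable {k : Type u} [Field k] {n e : ℕ}

theorem zero_of_forall_eval {T : Type*} (q : Polynomial (T → k))
    (h : ∀ t : T, q.map (Pi.evalRingHom (fun _ : T => k) t) = 0) : q = 0 := by
  apply Polynomial.ext
  intro i
  funext t
  have := congrArg (fun p => Polynomial.coeff p i) (h t)
  simpa [Polynomial.coeff_map] using this

/-- From a dense set of liftable members we get a liftable generic member. -/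
theorem exists_generic_lift (Y : Source k n) (M : Set (Maps k n e)) (hM : (idealOf M).IsPrime)
    (hdom : Y.Dominates M) :
    ∃ (L : Type u) (_ : Field L) (_ : Algebra k L) (c : Idx n e → L), IsGenericPoint M c ∧
      ∃ ψ : Fin (Y.r + 1) → L[X],
        (∀ p ∈ Y.I, MvPolynomial.aeval ψ p = 0) ∧
        (∀ a b, MvPolynomial.aeval ψ (Y.F a) * form c b = MvPolynomial.aeval ψ (Y.F b) * form c a) ∧
        ∃ a, MvPolynomial.aeval ψ (Y.F a) ≠ 0 := by
  classical
  obtain ⟨e', hdom⟩ := hdom
  set S : Set (Maps k n e) := {c | c ∈ M ∧ Y.Lifts e' c} with hS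
  have hideal : idealOf S = idealOf M := by
    apply le_antisymm
    · rw [← idealOf_closure S]
      intro p hp
      rw [mem_idealOf] at hp ⊢
      exact fun x hx => hp x (hdom hx)
    · intro p hp
      rw [mem_idealOf] at hp ⊢
      exact fun x hx => hp x hx.1
  let T : Type u := {c : Maps k n e // c ∈ S}
  let A : Type u := T → k
  have hlift : ∀ t : T, ∃ (ψ : Fin (Y.r + 1) → k[X]) (G : k[X]), (∀ i, (ψ i).natDegree ≤ e') ∧
    (∀ p ∈ Y.I, MvPolynomial.aeval ψ p = 0) ∧ G ≠ 0 ∧
    ∀ a, MvPolynomial.aeval ψ (Y.F a) = G * form t.1.coeffs a := fun t => t.2.2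
  choose ψt Gt hdeg hψt hG hFt using hlift
  let ev : MvPolynomial (Idx n e) k →ₐ[k] A :=
    MvPolynomial.aeval (fun i => (fun t : T => t.1.coeffs i))
  have hev : ∀ p t, ev p t = MvPolynomial.eval t.1.coeffs p := by
    intro p t
    have := MvPolynomial.comp_aeval_apply (fun i => (fun t : T => t.1.coeffs i))
      (Pi.evalAlgHom k (fun _ : T => k) t) p
    simp only [Pi.evalAlgHom_apply] at this
    rw [← MvPolynomial.aeval_eq_eval]
    exact this
  have hdisj : Disjoint ((⊥ : Ideal A) : Set A)
      ((idealOf M).primeCompl.map (ev : MvPolynomial (Idx n e) k →* A) : Set A) := by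
    rw [Set.disjoint_left]
    rintro x hx ⟨p, hp, rfl⟩
    have hx0 : ev p = 0 := hx
    apply hp
    rw [SetLike.mem_coe, ← hideal, mem_idealOf]
    intro c hc
    rw [← hev p ⟨c, hc⟩, hx0]
    rfl
  obtain ⟨𝔪, h𝔪, -, hdis⟩ := Ideal.exists_le_prime_disjoint _ _ hdisj
  let L : Type u := FractionRing (A ⧸ 𝔪)
  let π : A →ₐ[k] L := (IsScalarTower.toAlgHom k (A ⧸ 𝔪) L).comp (Ideal.Quotient.mkₐ k 𝔪)
  have hπ : ∀ x : A, π x = 0 ↔ x ∈ 𝔪 := by
    intro x
    have h1 : π x = algebraMap (A ⧸ 𝔪) L (Ideal.Quotient.mk 𝔪 x) := rfl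
    rw [h1, ← Ideal.Quotient.eq_zero_iff_mem]
    constructor
    · intro h
      exact IsFractionRing.injective (A ⧸ 𝔪) L (h.trans (map_zero _).symm)
    · intro h
      rw [h, map_zero]
  let cA : Idx n e → A := fun i => (fun t : T => t.1.coeffs i)
  let c : Idx n e → L := fun i => π (cA i)
  have haeval : ∀ p, MvPolynomial.aeval c p = π (ev p) := by
    intro p
    exact (MvPolynomial.comp_aeval_apply cA π p).symm
  have hgen : IsGenericPoint M c := by
    intro p
    rw [haeval, hπ, ← mem_idealOf]
    constructor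
    · intro h
      by_contra hp
      exact (Set.disjoint_left.mp hdis h) ⟨p, hp, rfl⟩
    · intro h
      rw [← hideal, mem_idealOf] at h
      have : ev p = 0 := by
        funext t
        rw [hev, h t.1 t.2]
        rfl
      rw [this]
      exact 𝔪.zero_mem
  let ψA : Fin (Y.r + 1) → A[X] := fun i => polyOf (fun l : Fin (e' + 1) => fun t => (ψt t i).coeff l)
  let ψ : Fin (Y.r + 1) → L[X] := fun i => (ψA i).map (π : A →+* L)
  have hψA : ∀ t i, (ψA i).map (Pi.evalRingHom (fun _ : T => k) t) = ψt t i := by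
    intro t i
    rw [polyOf_map]
    exact polyOf_coeff' _ (hdeg t i)
  have hformA : ∀ t a, (form cA a).map (Pi.evalRingHom (fun _ : T => k) t) = form t.1.coeffs a := by
    intro t a
    rw [form_map]
    rfl
  have hformL : ∀ a, (form cA a).map (π : A →+* L) = form c a := by
    intro a
    rw [form_map]
    rfl
  have hAt : ∀ (t : T) (p : MvPolynomial (Fin (Y.r + 1)) k), (MvPolynomial.aeval ψA p).map (Pi.evalRingHom (fun _ : T => k) t) =
      MvPolynomial.aeval (ψt t) p := by
    intro t p
    have := MvPolynomial.comp_aeval_apply ψA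
      (Polynomial.mapAlgHom (Pi.evalAlgHom k (fun _ : T => k) t)) p
    have h2 : (fun i => (Polynomial.mapAlgHom (Pi.evalAlgHom k (fun _ : T => k) t)) (ψA i)) =
        ψt t := by
      funext i
      exact hψA t i
    rw [h2] at this
    exact this
  have hAL : ∀ p : MvPolynomial (Fin (Y.r + 1)) k, (MvPolynomial.aeval ψA p).map (π : A →+* L) = MvPolynomial.aeval ψ p := by
    intro p
    exact MvPolynomial.comp_aeval_apply ψA (Polynomial.mapAlgHom π) p
  refine ⟨L, inferInstance, inferInstance, c, hgen, ψ, ?_, ?_, ?_⟩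
  · intro p hp
    rw [← hAL]
    have : MvPolynomial.aeval ψA p = 0 := by
      apply zero_of_forall_eval
      intro t
      rw [hAt, hψt t p hp]
    rw [this, Polynomial.map_zero]
  · intro a b
    rw [← hAL, ← hAL, ← hformL, ← hformL, ← Polynomial.map_mul, ← Polynomial.map_mul]
    congr 1
    rw [← sub_eq_zero]
    apply zero_of_forall_eval
    intro t
    rw [Polynomial.map_sub, Polynomial.map_mul, Polynomial.map_mul, hAt, hAt, hformA, hformA,
      hFt, hFt]
    ring
  · by_contra hcon
    push Not at hcon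
    -- all coefficients lie in the ideal
    have hmem : ∀ a i, (MvPolynomial.aeval ψA (Y.F a)).coeff i ∈ 𝔪 := by
      intro a i
      rw [← hπ]
      have h1 := hcon a
      rw [← hAL] at h1
      have h2 := congrArg (fun p => Polynomial.coeff p i) h1
      simpa [Polynomial.coeff_map] using h2
    apply h𝔪.ne_top
    rw [Ideal.eq_top_iff_one]
    -- pointwise choice
    have hpt : ∀ t : T, ∃ a, ∃ i ∈ Finset.range ((MvPolynomial.aeval ψA (Y.F a)).natDegree + 1),
        (MvPolynomial.aeval ψA (Y.F a)).coeff i t ≠ 0 := by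
      intro t
      have h1 : ∃ a, MvPolynomial.aeval (ψt t) (Y.F a) ≠ 0 := by
        obtain ⟨a, ha⟩ := t.1.isMap.base_infty
        refine ⟨a, ?_⟩
        rw [hFt]
        apply mul_ne_zero (hG t)
        intro h0
        apply ha
        rw [← coeff_form t.1.coeffs, h0, Polynomial.coeff_zero]
      obtain ⟨a, ha⟩ := h1
      refine ⟨a, ?_⟩
      by_contra hcon2
      push Not at hcon2
      apply ha
      rw [← hAt]
      ext i
      rw [Polynomial.coeff_map, Polynomial.coeff_zero]
      by_cases hi : i ∈ Finset.range ((MvPolynomial.aeval ψA (Y.F a)).natDegree + 1)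
      · exact hcon2 i hi
      · rw [Finset.mem_range, not_lt] at hi
        rw [Polynomial.coeff_eq_zero_of_natDegree_lt (by omega), map_zero]
    choose at_ it hit hne using hpt
    let w : Coord n → ℕ → A := fun a i t =>
      if at_ t = a ∧ it t = i then ((MvPolynomial.aeval ψA (Y.F a)).coeff i t)⁻¹ else 0
    have hw : ∀ a i t, w a i t = if at_ t = a ∧ it t = i then
        ((MvPolynomial.aeval ψA (Y.F a)).coeff i t)⁻¹ else 0 := fun _ _ _ => rfl
    have hmul : ∀ (f g : A) (t : T), (f * g) t = f t * g t := fun _ _ _ => rfl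
    have hone : (1 : A) = ∑ a : Coord n, ∑ i ∈ Finset.range
        ((MvPolynomial.aeval ψA (Y.F a)).natDegree + 1),
        w a i * (MvPolynomial.aeval ψA (Y.F a)).coeff i := by
      funext t
      rw [Finset.sum_apply, Finset.sum_eq_single (at_ t)]
      · rw [Finset.sum_apply, Finset.sum_eq_single (it t)]
        · rw [hmul, hw, if_pos ⟨rfl, rfl⟩, inv_mul_cancel₀ (hne t)]
          rfl
        · intro i _ hi
          rw [hmul, hw, if_neg, zero_mul]
          rintro ⟨_, h2⟩
          exact hi h2.symm
        · intro h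
          exact absurd (hit t) h
      · intro a _ ha
        rw [Finset.sum_apply]
        apply Finset.sum_eq_zero
        intro i _
        rw [hmul, hw, if_neg, zero_mul]
        rintro ⟨h1, _⟩
        exact ha h1.symm
      · intro h
        exact absurd (Finset.mem_univ _) h
    rw [hone]
    apply Ideal.sum_mem
    intro a _
    apply Ideal.sum_mem
    intro i _
    exact Ideal.mul_mem_left _ _ (hmem a i)

end Pool.Agent.H22.GMC
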