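import Mathlib
import Pool.Agent.H22.GMC.Ultra

namespace Pool.Agent.H22.GMC

universe u v w

open Polynomial

section general

variable {k : Type u} [Field k]

theorem aeval_mul_of_isHomogeneous {σ A : Type*} [Fintype σ] [CommRing A] [Algebra k A]
    (p : MvPolynomial σ k) (D : ℕ) (hp : p.IsHomogeneous D) (f : σ → A) (t : A) :
    MvPolynomial.aeval (fun i => f i * t) p = MvPolynomial.aeval f p * t ^ D := by
  rw [MvPolynomial.aeval_def, MvPolynomial.aeval_def, MvPolynomial.eval₂_eq',
    MvPolynomial.eval₂_eq', Finset.sum_mul]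
  apply Finset.sum_congr rfl
  intro d hd
  have h1 : (∏ i, (f i * t) ^ d i) = (∏ i, f i ^ d i) * t ^ D := by
    simp_rw [mul_pow]
    rw [Finset.prod_mul_distrib, Finset.prod_pow_eq_pow_sum]
    congr 2
    have := hp (MvPolynomial.mem_support_iff.mp hd)
    rw [← this, Finsupp.weight_apply, Finsupp.sum_fintype]
    · simp
    · simp
  rw [h1]
  ring

end general

variable {k : Type u} [Field k] {n e : ℕ}

section instances

variable (Y : Source k n)

instance : IsFractionRing Y.S Y.K := (inferInstance : IsFractionRing Y.S (FractionRing Y.S))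

instance : IsScalarTower k Y.S Y.K := (inferInstance : IsScalarTower k Y.S (FractionRing Y.S))

theorem res_eq_zero_iff {p : MvPolynomial (Fin (Y.r + 1)) k} : Y.res p = 0 ↔ p ∈ Y.I :=
  Ideal.Quotient.eq_zero_iff_mem

theorem res_eq_iff {p q : MvPolynomial (Fin (Y.r + 1)) k} : Y.res p = Y.res q ↔ p - q ∈ Y.I :=
  Ideal.Quotient.eq

theorem res_surjective : Function.Surjective Y.res := Ideal.Quotient.mk_surjective

end instances

section

variable (Y : Source k n) {L : Type u} [Field L] [Algebra k L] (c : Idx n e → L)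
  (ψ : Fin (Y.r + 1) → L[X]) (hψ : ∀ p ∈ Y.I, MvPolynomial.aeval ψ p = 0)
  (hprop : ∀ a b, MvPolynomial.aeval ψ (Y.F a) * form c b =
    MvPolynomial.aeval ψ (Y.F b) * form c a)
  (hne : ∃ a, MvPolynomial.aeval ψ (Y.F a) ≠ 0)
  (hx : AlgebraicIndependent k (coordFun c))

/-- evaluation at `ψ` with values in rational functions -/
noncomputable def Ev : MvPolynomial (Fin (Y.r + 1)) k →ₐ[k] RatFunc L :=
  MvPolynomial.aeval (fun i => algebraMap L[X] (RatFunc L) (ψ i))

theorem Ev_apply (p : MvPolynomial (Fin (Y.r + 1)) k) :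
    Ev Y ψ p = algebraMap L[X] (RatFunc L) (MvPolynomial.aeval ψ p) := by
  have := MvPolynomial.comp_aeval_apply ψ (IsScalarTower.toAlgHom k L[X] (RatFunc L)) p
  exact this.symm

theorem Ev_eq_zero_iff (p : MvPolynomial (Fin (Y.r + 1)) k) :
    Ev Y ψ p = 0 ↔ MvPolynomial.aeval ψ p = 0 := by
  rw [Ev_apply]
  constructor
  · intro h
    exact IsFractionRing.injective L[X] (RatFunc L) (h.trans (map_zero _).symm)
  · intro h
    rw [h, map_zero]

include hx in
theorem form_zero_ne : form c (some (0, 0)) ≠ 0 := by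
  intro h
  have h1 := hx.ne_zero none
  apply h1
  unfold coordFun
  rw [h, map_zero, div_zero]

include hprop hne hx in
theorem Ev_F00_ne : Ev Y ψ (Y.F (some (0, 0))) ≠ 0 := by
  intro h
  rw [Ev_eq_zero_iff] at h
  obtain ⟨a, ha⟩ := hne
  have h1 := hprop a (some (0, 0))
  rw [h, zero_mul] at h1
  rcases mul_eq_zero.mp h1 with h2 | h2
  · exact ha h2
  · exact form_zero_ne c hx h2

include hprop hne hx in
theorem Ev_ratio (a : Coord n) : Ev Y ψ (Y.F a) / Ev Y ψ (Y.F (some (0, 0))) =
    algebraMap L[X] (RatFunc L) (form c a) / algebraMap L[X] (RatFunc L) (form c (some (0, 0))) := by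
  have h1 := Ev_F00_ne Y c ψ hprop hne hx
  have h2 : algebraMap L[X] (RatFunc L) (form c (some (0, 0))) ≠ 0 := by
    intro h
    exact form_zero_ne c hx (IsFractionRing.injective L[X] (RatFunc L) (h.trans (map_zero _).symm))
  rw [div_eq_div_iff h1 h2, Ev_apply, Ev_apply, ← map_mul, ← map_mul, hprop]
  congr 1
  ring

include hψ in
theorem Ev_of_mem (p : MvPolynomial (Fin (Y.r + 1)) k) (hp : p ∈ Y.I) : Ev Y ψ p = 0 := by
  rw [Ev_eq_zero_iff]; exact hψ p hp

include hψ hprop hne hx in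
/-- Existence of the localisation maps. -/
theorem exists_loc : ∃ (Q : Type u) (_ : CommRing Q) (_ : Algebra k Q)
    (j : Q →ₐ[k] Y.K) (Θ : Q →ₐ[k] RatFunc L), Function.Injective j ∧
    (∀ (p : MvPolynomial (Fin (Y.r + 1)) k) (D : ℕ), ∃ z : Q, j z = Y.ratio p (Y.F (some (0, 0)) ^ D) ∧
      Θ z = Ev Y ψ p / Ev Y ψ (Y.F (some (0, 0))) ^ D) := by
  set f0 : MvPolynomial (Fin (Y.r + 1)) k := Y.F (some (0, 0)) with hf0
  let R := Y.S
  have hE0 : Ev Y ψ f0 ≠ 0 := Ev_F00_ne Y c ψ hprop hne hx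
  have hf0I : Y.res f0 ≠ 0 := by
    intro h
    rw [res_eq_zero_iff] at h
    exact hE0 (Ev_of_mem Y ψ hψ _ h)
  have hf0K : algebraMap R Y.K (Y.res f0) ≠ 0 := by
    intro h
    exact hf0I (IsFractionRing.injective R Y.K (h.trans (map_zero _).symm))
  let Q := Localization.Away (Y.res f0 : R)
  let EvQ : R →ₐ[k] RatFunc L := Ideal.Quotient.liftₐ Y.I (Ev Y ψ) (fun p hp => Ev_of_mem Y ψ hψ p hp)
  have hEvQ : ∀ p, EvQ (Y.res p) = Ev Y ψ p := fun p => rfl
  have hu1 : ∀ y : Submonoid.powers (Y.res f0 : R),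
      IsUnit ((IsScalarTower.toAlgHom k R Y.K) y) := by
    rintro ⟨_, N, rfl⟩
    rw [map_pow]
    exact (IsUnit.mk0 _ hf0K).pow N
  have hu2 : ∀ y : Submonoid.powers (Y.res f0 : R), IsUnit (EvQ y) := by
    rintro ⟨_, N, rfl⟩
    rw [map_pow]
    exact (IsUnit.mk0 _ hE0).pow N
  let j : Q →ₐ[k] Y.K := IsLocalization.liftAlgHom
    (M := Submonoid.powers (Y.res f0 : R)) (f := IsScalarTower.toAlgHom k R Y.K) hu1
  let Θ : Q →ₐ[k] RatFunc L := IsLocalization.liftAlgHom
    (M := Submonoid.powers (Y.res f0 : R)) (f := EvQ) hu2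
  have hj : ∀ z : R, j (algebraMap R Q z) = algebraMap R Y.K z := fun z =>
    IsLocalization.lift_eq hu1 z
  have hΘ : ∀ z : R, Θ (algebraMap R Q z) = EvQ z := fun z =>
    IsLocalization.lift_eq hu2 z
  have hjinj : Function.Injective j := by
    rw [injective_iff_map_eq_zero]
    intro z hz
    obtain ⟨⟨x, y⟩, hxy⟩ := IsLocalization.surj
      (Submonoid.powers (Y.res f0 : R)) z
    have h1 := congrArg j hxy
    rw [map_mul, hz, zero_mul, hj] at h1
    have h2 : x = 0 := IsFractionRing.injective R Y.K (h1.symm.trans (map_zero _).symm)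
    simp only [h2, map_zero] at hxy
    have hy : IsUnit (algebraMap R Q y) := IsLocalization.map_units Q y
    exact (hy.mul_left_eq_zero).mp hxy
  refine ⟨Q, inferInstance, inferInstance, j, Θ, hjinj, ?_⟩
  intro p D
  obtain ⟨z, hz⟩ : ∃ z : Q, z * (algebraMap R Q (Y.res f0)) ^ D =
      algebraMap R Q (Y.res p) := by
    refine ⟨IsLocalization.mk' Q (Y.res p)
      (⟨(Y.res f0) ^ D, pow_mem (Submonoid.mem_powers _) D⟩ :
        Submonoid.powers (Y.res f0 : R)), ?_⟩
    rw [← map_pow (algebraMap R Q)]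
    exact IsLocalization.mk'_spec Q (Y.res p) _
  refine ⟨z, ?_, ?_⟩
  · have h1 := congrArg j hz
    rw [map_mul, map_pow, hj, hj] at h1
    unfold Source.ratio
    rw [map_pow, map_pow, eq_div_iff (pow_ne_zero _ hf0K)]
    exact h1
  · have h1 := congrArg Θ hz
    rw [map_mul, map_pow, hΘ, hΘ, hEvQ, hEvQ] at h1
    rw [eq_div_iff (pow_ne_zero _ hE0)]
    exact h1

/-- pullback coordinates -/
noncomputable def coordY : Option (Fin n) → Y.K :=
  fun a => Y.ratio (Y.F (crd n a)) (Y.F (some (0, 0)))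

include hψ hprop hne hx in
theorem exists_loc' : ∃ (Q : Type u) (_ : CommRing Q) (_ : Algebra k Q)
    (j : Q →ₐ[k] Y.K) (Θ : Q →ₐ[k] RatFunc L), Function.Injective j ∧
    (∀ (p : MvPolynomial (Fin (Y.r + 1)) k) (D : ℕ), ∃ z : Q, j z = Y.ratio p (Y.F (some (0, 0)) ^ D) ∧
      Θ z = Ev Y ψ p / Ev Y ψ (Y.F (some (0, 0))) ^ D) ∧
    ∃ cl : Option (Fin n) → Q, (∀ a, j (cl a) = coordY Y a) ∧ (∀ a, Θ (cl a) = coordFun c a) := by
  obtain ⟨Q, i1, i2, j, Θ, hj, h⟩ := exists_loc Y c ψ hψ hprop hne hx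
  refine ⟨Q, i1, i2, j, Θ, hj, h, ?_⟩
  have h1 : ∀ a : Option (Fin n), ∃ z : Q, j z = coordY Y a ∧ Θ z = coordFun c a := by
    intro a
    obtain ⟨z, hz1, hz2⟩ := h (Y.F (crd n a)) 1
    rw [pow_one] at hz1 hz2
    refine ⟨z, hz1, ?_⟩
    rw [hz2, Ev_ratio Y c ψ hprop hne hx]
    rfl
  choose cl h1 h2 using h1
  exact ⟨cl, h1, h2⟩

include hψ hprop hne hx in
theorem algebraicIndependent_coordY : AlgebraicIndependent k (coordY Y) := by
  obtain ⟨Q, i1, i2, j, Θ, hj, -, cl, h1, h2⟩ := exists_loc' Y c ψ hψ hprop hne hx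
  rw [algebraicIndependent_iff]
  intro p hp
  have e1 : j (MvPolynomial.aeval cl p) = MvPolynomial.aeval (coordY Y) p := by
    rw [MvPolynomial.comp_aeval_apply]
    congr 2
    funext a
    exact h1 a
  have e2 : Θ (MvPolynomial.aeval cl p) = MvPolynomial.aeval (coordFun c) p := by
    rw [MvPolynomial.comp_aeval_apply]
    congr 2
    funext a
    exact h2 a
  have e3 : MvPolynomial.aeval cl p = 0 := hj (e1.trans (hp.trans (map_zero _).symm))
  rw [e3, map_zero] at e2
  exact (algebraicIndependent_iff.mp hx) p e2.symm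

include hψ hprop hne hx in
theorem F00_ne_mem : algebraMap Y.S Y.K
    (Y.res (Y.F (some (0, 0)))) ≠ 0 := by
  intro h
  have h1 := IsFractionRing.injective Y.S Y.K
    (h.trans (map_zero _).symm)
  rw [res_eq_zero_iff] at h1
  exact Ev_F00_ne Y c ψ hprop hne hx (Ev_of_mem Y ψ hψ _ h1)

include hψ hprop hne hx in
theorem imageField_eq : Y.imageField = IntermediateField.adjoin k (Set.range (coordY Y)) := by
  have hF := F00_ne_mem Y c ψ hψ hprop hne hx
  set E := IntermediateField.adjoin k (Set.range (coordY Y)) with hE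
  have hgen : ∀ a, coordY Y a ∈ E := fun a => IntermediateField.subset_adjoin _ _ ⟨a, rfl⟩
  apply le_antisymm
  · unfold Source.imageField
    rw [IntermediateField.adjoin_le_iff]
    rintro _ ⟨a, b, rfl⟩
    have h0 : ∀ i : Fin (n + 1), Y.ratio (Y.F (some (0, i))) (Y.F (some (0, 0))) ∈ E := by
      intro i
      refine Fin.cases ?_ (fun i => ?_) i
      · have : Y.ratio (Y.F (some (0, 0))) (Y.F (some (0, 0))) = 1 := div_self hF
        rw [this]
        exact E.one_mem
      · exact hgen (some i)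
    have h1 : ∀ a, Y.ratio (Y.F a) (Y.F (some (0, 0))) ∈ E := by
      intro a
      rcases a with _ | ⟨i, l⟩
      · exact hgen none
      · have h2 : Y.ratio (Y.F (some (i, l))) (Y.F (some (0, 0))) =
            Y.ratio (Y.F (some (0, i))) (Y.F (some (0, 0))) *
            Y.ratio (Y.F (some (0, l))) (Y.F (some (0, 0))) := by
          unfold Source.ratio
          rw [div_mul_div_comm, div_eq_div_iff hF (mul_ne_zero hF hF), ← map_mul, ← map_mul,
            ← map_mul, ← map_mul, ← map_mul, ← map_mul, ← map_mul, ← map_mul]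
          congr 1
          rw [res_eq_iff]
          have h3 := Y.F_rank i l 0 0
          have h4 := Y.F_symm i 0
          have h5 : Y.F (some (i, l)) * (Y.F (some (0, 0)) * Y.F (some (0, 0))) -
              Y.F (some (0, i)) * Y.F (some (0, l)) * Y.F (some (0, 0)) =
              (Y.F (some (i, l)) * Y.F (some (0, 0)) - Y.F (some (i, 0)) * Y.F (some (0, l))) *
                Y.F (some (0, 0)) +
              (Y.F (some (i, 0)) - Y.F (some (0, i))) * (Y.F (some (0, l)) * Y.F (some (0, 0))) := by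
            ring
          rw [h5]
          exact Y.I.add_mem (Y.I.mul_mem_right _ h3) (Y.I.mul_mem_right _ h4)
        rw [h2]
        exact E.mul_mem (h0 i) (h0 l)
    have h3 : Y.ratio (Y.F a) (Y.F b) = Y.ratio (Y.F a) (Y.F (some (0, 0))) /
        Y.ratio (Y.F b) (Y.F (some (0, 0))) := by
      unfold Source.ratio
      rw [div_div_div_cancel_right₀ hF]
    rw [h3]
    exact E.div_mem (h1 a) (h1 b)
  · rw [hE, IntermediateField.adjoin_le_iff]
    rintro _ ⟨a, rfl⟩
    exact IntermediateField.subset_adjoin _ _ ⟨_, _, rfl⟩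

include hψ hprop hne hx in
theorem exists_relation (hfin : Y.GenericallyFinite) (z : Y.K) (hz : z ∈ Y.functionField) :
    ∃ q : Polynomial (MvPolynomial (Option (Fin n)) k), q ≠ 0 ∧ (z ≠ 0 → q.coeff 0 ≠ 0) ∧
      q.eval₂ (MvPolynomial.aeval (coordY Y) :
        MvPolynomial (Option (Fin n)) k →ₐ[k] Y.K).toRingHom z = 0 := by
  have hxY := algebraicIndependent_coordY Y c ψ hψ hprop hne hx
  have h1 := hfin z hz
  rw [imageField_eq Y c ψ hψ hprop hne hx, IntermediateField.isAlgebraic_adjoin_iff] at h1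
  have key : ∀ q : Polynomial (Algebra.adjoin k (Set.range (coordY Y))), q ≠ 0 →
      Polynomial.aeval z q = 0 →
      ∃ q' : Polynomial (MvPolynomial (Option (Fin n)) k), q' ≠ 0 ∧
        (q.coeff 0 ≠ 0 → q'.coeff 0 ≠ 0) ∧
      q'.eval₂ (MvPolynomial.aeval (coordY Y) :
        MvPolynomial (Option (Fin n)) k →ₐ[k] Y.K).toRingHom z = 0 := by
    intro q hq hqz
    let ε := hxY.aevalEquiv
    let φ : Algebra.adjoin k (Set.range (coordY Y)) →+* MvPolynomial (Option (Fin n)) k :=
      (ε.symm : Algebra.adjoin k (Set.range (coordY Y)) →+* MvPolynomial (Option (Fin n)) k)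
    have hφ : Function.Injective φ := ε.symm.injective
    refine ⟨q.map φ, ?_, ?_, ?_⟩
    · intro h
      exact hq (Polynomial.map_injective φ hφ (h.trans (Polynomial.map_zero _).symm))
    · intro h h0
      rw [Polynomial.coeff_map] at h0
      exact h (hφ (h0.trans (map_zero _).symm))
    · rw [Polynomial.eval₂_map]
      rw [Polynomial.aeval_def] at hqz
      rw [← hqz]
      congr 1
      apply RingHom.ext
      intro w
      obtain ⟨w', rfl⟩ := ε.surjective w
      have e1 : φ (ε w') = w' := ε.symm_apply_apply w'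
      rw [RingHom.comp_apply, e1]
      exact (hxY.aevalEquiv_apply_coe w').symm
  by_cases hz0 : z = 0
  · subst hz0
    refine ⟨Polynomial.X, Polynomial.X_ne_zero, fun h => absurd rfl h, ?_⟩
    rw [Polynomial.eval₂_X]
  · obtain ⟨q, hq0, hqz⟩ := h1.exists_nonzero_coeff_and_aeval_eq_zero
      (mem_nonZeroDivisors_of_ne_zero hz0)
    obtain ⟨q', h2, h3, h4⟩ := key q (by rintro rfl; simp at hq0) hqz
    exact ⟨q', h2, fun _ => h3 hq0, h4⟩

include hψ hprop hne hx in
theorem d_pos : 1 ≤ Y.d := by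
  by_contra hd
  have hd0 : Y.d = 0 := by omega
  have hC : ∀ a, ∃ r : k, Y.F a = MvPolynomial.C r := by
    intro a
    have h1 := Y.F_homog a
    rw [hd0] at h1
    have h2 : (Y.F a).totalDegree = 0 := by
      by_cases h0 : Y.F a = 0
      · rw [h0]; simp
      · exact h1.totalDegree h0
    exact ⟨_, MvPolynomial.totalDegree_eq_zero_iff_eq_C.mp h2⟩
  obtain ⟨r, hr⟩ := hC (crd n none)
  obtain ⟨s, hs⟩ := hC (some (0, 0))
  have h1 := Ev_ratio Y c ψ hprop hne hx (crd n none)
  have h2 : coordFun c none = algebraMap k (RatFunc L) (r / s) := by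
    unfold coordFun
    rw [← h1, hr, hs, MvPolynomial.algHom_C, MvPolynomial.algHom_C, map_div₀]
  exact hx.transcendental none (h2 ▸ isAlgebraic_algebraMap _)

include hψ hprop hne hx in
theorem Ev_ne_zero (hfin : Y.GenericallyFinite) (p : MvPolynomial (Fin (Y.r + 1)) k) (D : ℕ)
    (hp : p.IsHomogeneous D) (hpI : p ∉ Y.I) : Ev Y ψ p ≠ 0 := by
  intro hp0
  have hF := F00_ne_mem Y c ψ hψ hprop hne hx
  have hd := d_pos Y c ψ hψ hprop hne hx
  obtain ⟨Q, i1, i2, j, Θ, hj, hloc, cl, h1, h2⟩ := exists_loc' Y c ψ hψ hprop hne hx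
  obtain ⟨zl, hz1, hz2⟩ := hloc (p ^ Y.d) D
  set z := Y.ratio (p ^ Y.d) (Y.F (some (0, 0)) ^ D) with hz
  have hzf : z ∈ Y.functionField := by
    apply IntermediateField.subset_adjoin
    refine ⟨D * Y.d, p ^ Y.d, Y.F (some (0, 0)) ^ D, hp.pow _, ?_, rfl⟩
    rw [mul_comm]
    exact (Y.F_homog _).pow _
  have hz0 : z ≠ 0 := by
    rw [hz]
    unfold Source.ratio
    apply div_ne_zero
    · rw [map_pow, map_pow]
      apply pow_ne_zero
      intro h
      have h1 := IsFractionRing.injective Y.S Y.K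
        (h.trans (map_zero _).symm)
      rw [res_eq_zero_iff] at h1
      exact hpI h1
    · rw [map_pow, map_pow]
      exact pow_ne_zero _ hF
  obtain ⟨q, _, hq0, hq⟩ := exists_relation Y c ψ hψ hprop hne hx hfin z hzf
  have e1 : (j : Q →+* Y.K).comp (MvPolynomial.aeval cl :
      MvPolynomial (Option (Fin n)) k →ₐ[k] Q).toRingHom =
      (MvPolynomial.aeval (coordY Y) : MvPolynomial (Option (Fin n)) k →ₐ[k] Y.K).toRingHom := by
    apply RingHom.ext
    intro p
    have := MvPolynomial.comp_aeval_apply cl j p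
    rw [show (fun i => j (cl i)) = coordY Y from funext h1] at this
    exact this
  have e2 : (Θ : Q →+* RatFunc L).comp (MvPolynomial.aeval cl :
      MvPolynomial (Option (Fin n)) k →ₐ[k] Q).toRingHom =
      (MvPolynomial.aeval (coordFun c) :
        MvPolynomial (Option (Fin n)) k →ₐ[k] RatFunc L).toRingHom := by
    apply RingHom.ext
    intro p
    have := MvPolynomial.comp_aeval_apply cl Θ p
    rw [show (fun i => Θ (cl i)) = coordFun c from funext h2] at this
    exact this
  have e3 : q.eval₂ (MvPolynomial.aeval cl :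
      MvPolynomial (Option (Fin n)) k →ₐ[k] Q).toRingHom zl = 0 := by
    apply hj
    have := Polynomial.hom_eval₂ q (MvPolynomial.aeval cl :
      MvPolynomial (Option (Fin n)) k →ₐ[k] Q).toRingHom (j : Q →+* Y.K) zl
    rw [e1] at this
    rw [map_zero]
    refine this.trans ?_
    rw [← hq]
    congr 1
  have e4 := Polynomial.hom_eval₂ q (MvPolynomial.aeval cl :
      MvPolynomial (Option (Fin n)) k →ₐ[k] Q).toRingHom (Θ : Q →+* RatFunc L) zl
  rw [e3, map_zero, e2] at e4
  have e5 : (Θ : Q →+* RatFunc L) zl = 0 := by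
    rw [RingHom.coe_coe, hz2, map_pow, hp0, zero_pow (by omega), zero_div]
  rw [e5, ← Polynomial.eval_map, ← Polynomial.coeff_zero_eq_eval_zero, Polynomial.coeff_map] at e4
  exact hq0 hz0 ((algebraicIndependent_iff.mp hx) _ e4.symm)

end

end Pool.Agent.H22.GMC
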