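import Mathlib
import Pool.Agent.H22.GMC.Birational

namespace Pool.Agent.H22.GMC

universe u v w

open Polynomial

variable {k : Type u} [Field k] {n e : ℕ}

section

variable (Y : Source k n) {L : Type u} [Field L] [Algebra k L] (c : Idx n e → L)
  (ψ : Fin (Y.r + 1) → L[X]) (hψ : ∀ p ∈ Y.I, MvPolynomial.aeval ψ p = 0)
  (hprop : ∀ a b, MvPolynomial.aeval ψ (Y.F a) * form c b =
    MvPolynomial.aeval ψ (Y.F b) * form c a)
  (hne : ∃ a, MvPolynomial.aeval ψ (Y.F a) ≠ 0)
  (hx : AlgebraicIndependent k (coordFun c))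

/-- homogenised evaluation -/
noncomputable def Psi0 : MvPolynomial (Fin (Y.r + 1)) k →ₐ[k] (RatFunc L)[X] :=
  MvPolynomial.aeval (fun i => Polynomial.C (algebraMap L[X] (RatFunc L) (ψ i)) * Polynomial.X)

theorem Psi0_homog (p : MvPolynomial (Fin (Y.r + 1)) k) (D : ℕ) (hp : p.IsHomogeneous D) :
    Psi0 Y ψ p = Polynomial.C (Ev Y ψ p) * Polynomial.X ^ D := by
  unfold Psi0
  rw [aeval_mul_of_isHomogeneous p D hp]
  congr 1
  have := MvPolynomial.comp_aeval_apply (fun i => algebraMap L[X] (RatFunc L) (ψ i))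
    (IsScalarTower.toAlgHom k (RatFunc L) (RatFunc L)[X]) p
  exact this.symm

theorem Psi0_eq_sum (p : MvPolynomial (Fin (Y.r + 1)) k) :
    Psi0 Y ψ p = ∑ i ∈ Finset.range (p.totalDegree + 1),
      Polynomial.C (Ev Y ψ (MvPolynomial.homogeneousComponent i p)) * Polynomial.X ^ i := by
  conv_lhs => rw [← MvPolynomial.sum_homogeneousComponent p]
  rw [map_sum]
  apply Finset.sum_congr rfl
  intro i _
  exact Psi0_homog Y ψ _ i (MvPolynomial.homogeneousComponent_isHomogeneous i p)

include hψ hprop hne hx in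
theorem Psi0_eq_zero_iff (hfin : Y.GenericallyFinite) (p : MvPolynomial (Fin (Y.r + 1)) k) :
    Psi0 Y ψ p = 0 ↔ p ∈ Y.I := by
  constructor
  · intro h
    rw [← MvPolynomial.sum_homogeneousComponent p]
    apply Y.I.sum_mem
    intro i hi
    by_contra hnot
    apply Ev_ne_zero Y c ψ hψ hprop hne hx hfin _ i
      (MvPolynomial.homogeneousComponent_isHomogeneous i p) hnot
    have h1 := congrArg (fun q => Polynomial.coeff q i) h
    simp only [Psi0_eq_sum, Polynomial.finsetSum_coeff, Polynomial.coeff_C_mul_X_pow,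
      Polynomial.coeff_zero] at h1
    rw [Finset.sum_ite_eq, if_pos hi] at h1
    exact h1
  · intro h
    rw [Psi0_eq_sum]
    apply Finset.sum_eq_zero
    intro i _
    rw [Ev_of_mem Y ψ hψ _ (Y.homog p h i), map_zero, zero_mul]

include hψ hprop hne hx in
/-- The function field of the cone over `Y` embeds over `k` into rational functions over
`RatFunc L` in such a way that quotients of forms go to the quotients of their values on `ψ`. -/
theorem exists_embedding (hfin : Y.GenericallyFinite) :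
    ∃ Ψ : Y.K →ₐ[k] RatFunc (RatFunc L), ∀ (D : ℕ) (A B : MvPolynomial (Fin (Y.r + 1)) k),
      A.IsHomogeneous D → B.IsHomogeneous D →
      Ψ (Y.ratio A B) = algebraMap (RatFunc L) (RatFunc (RatFunc L)) (Ev Y ψ A / Ev Y ψ B) := by
  let R := Y.S
  let g0 : MvPolynomial (Fin (Y.r + 1)) k →ₐ[k] RatFunc (RatFunc L) :=
    (IsScalarTower.toAlgHom k (RatFunc L)[X] (RatFunc (RatFunc L))).comp (Psi0 Y ψ)
  have hg0 : ∀ p, g0 p = 0 ↔ p ∈ Y.I := by
    intro p
    rw [← Psi0_eq_zero_iff Y c ψ hψ hprop hne hx hfin p]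
    constructor
    · intro h
      exact IsFractionRing.injective (RatFunc L)[X] (RatFunc (RatFunc L)) (h.trans (map_zero _).symm)
    · intro h
      change algebraMap (RatFunc L)[X] (RatFunc (RatFunc L)) (Psi0 Y ψ p) = 0
      rw [h, map_zero]
  let g : R →ₐ[k] RatFunc (RatFunc L) := Ideal.Quotient.liftₐ Y.I g0 (fun p hp => (hg0 p).mpr hp)
  have hgmk : ∀ p, g (Y.res p) = g0 p := fun p => rfl
  have hg : Function.Injective g := by
    rw [injective_iff_map_eq_zero]
    intro z hz
    obtain ⟨p, rfl⟩ := res_surjective Y z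
    rw [hgmk, hg0] at hz
    exact (res_eq_zero_iff Y).mpr hz
  let Ψ : Y.K →ₐ[k] RatFunc (RatFunc L) := IsFractionRing.liftAlgHom (g := g) hg
  have hΨ : ∀ p, Ψ (algebraMap R Y.K (Y.res p)) = g0 p := fun p =>
    IsFractionRing.lift_algebraMap hg _
  refine ⟨Ψ, ?_⟩
  intro D A B hA hB
  unfold Source.ratio
  rw [map_div₀, hΨ, hΨ]
  have h1 : ∀ p : MvPolynomial (Fin (Y.r + 1)) k, p.IsHomogeneous D → g0 p =
      algebraMap (RatFunc L) (RatFunc (RatFunc L)) (Ev Y ψ p) *
        (algebraMap (RatFunc L)[X] (RatFunc (RatFunc L)) Polynomial.X) ^ D := by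
    intro p hp
    change algebraMap (RatFunc L)[X] (RatFunc (RatFunc L)) (Psi0 Y ψ p) = _
    rw [Psi0_homog Y ψ p D hp, map_mul, map_pow]
    rfl
  have hX : (algebraMap (RatFunc L)[X] (RatFunc (RatFunc L)) Polynomial.X) ^ D ≠ 0 := by
    apply pow_ne_zero
    intro h
    exact Polynomial.X_ne_zero (IsFractionRing.injective (RatFunc L)[X] (RatFunc (RatFunc L))
      (h.trans (map_zero _).symm))
  rw [h1 A hA, h1 B hB, mul_div_mul_right _ _ hX, map_div₀]

end

end Pool.Agent.H22.GMC
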