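import Mathlib
import Pool.Agent.H22.GMC.Embedding

namespace Pool.Agent.H22.GMC

universe u v w

open Polynomial

variable {k : Type u} [Field k] {n e : ℕ}

section

variable (Y : Source k n) {L : Type u} [Field L] [Algebra k L] (c : Idx n e → L)
  (ψ : Fin (Y.r + 1) → L[X]) (hψ : ∀ p ∈ Y.I, MvPolynomial.aeval ψ p = 0)
  (hprop : ∀ a b, MvPolynomial.aeval ψ (Y.F a) * form c b =
    MvPolynomial.aeval ψ (Y.F b) * form c a)
  (hne : ∃ a, MvPolynomial.aeval ψ (Y.F a) ≠ 0)
  (hx : AlgebraicIndependent k (coordFun c))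

include hψ hprop hne hx in
/-- If `k(X)` is algebraically closed in the function field of the generic curve, then a
generically finite map through which the generic curve factors is birational. -/
theorem birational_of_lift (hfin : Y.GenericallyFinite)
    (hcl : ∀ θ : RatFunc L, IsAlgebraic (functionField k c) θ → θ ∈ functionField k c) :
    Y.Birational := by
  refine ⟨algebraicIndependent_coordY Y c ψ hψ hprop hne hx, ?_⟩
  intro z hz
  obtain ⟨Ψ, hΨ⟩ := exists_embedding Y c ψ hψ hprop hne hx hfin
  let C' : RatFunc L →ₐ[k] RatFunc (RatFunc L) :=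
    IsScalarTower.toAlgHom k (RatFunc L) (RatFunc (RatFunc L))
  have hC' : ∀ x, C' x = algebraMap (RatFunc L) (RatFunc (RatFunc L)) x := fun _ => rfl
  have hC'inj : Function.Injective C' := (algebraMap (RatFunc L) (RatFunc (RatFunc L))).injective
  have hcoord : ∀ a, Ψ (coordY Y a) = C' (coordFun c a) := by
    intro a
    have h1 := hΨ Y.d (Y.F (crd n a)) (Y.F (some (0, 0))) (Y.F_homog _) (Y.F_homog _)
    rw [Ev_ratio Y c ψ hprop hne hx] at h1
    exact h1
  -- the image of `z`
  have hle : Y.functionField ≤ (C'.fieldRange).comap Ψ := by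
    unfold Source.functionField
    rw [IntermediateField.adjoin_le_iff]
    rintro _ ⟨D, A, B, hA, hB, rfl⟩
    change Ψ (Y.ratio A B) ∈ C'.fieldRange
    rw [hΨ D A B hA hB]
    exact ⟨_, rfl⟩
  obtain ⟨θ, hθ⟩ : ∃ θ, C' θ = Ψ z := hle hz
  -- `θ` is algebraic
  obtain ⟨q, hq0, -, hq⟩ := exists_relation Y c ψ hψ hprop hne hx hfin z hz
  have e1 : (Ψ : Y.K →+* RatFunc (RatFunc L)).comp (MvPolynomial.aeval (coordY Y) :
      MvPolynomial (Option (Fin n)) k →ₐ[k] Y.K).toRingHom =
      (C' : RatFunc L →+* RatFunc (RatFunc L)).comp (MvPolynomial.aeval (coordFun c) :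
        MvPolynomial (Option (Fin n)) k →ₐ[k] RatFunc L).toRingHom := by
    apply RingHom.ext
    intro p
    have h1 := MvPolynomial.comp_aeval_apply (coordY Y) Ψ p
    have h2 := MvPolynomial.comp_aeval_apply (coordFun c) C' p
    rw [show (fun i => Ψ (coordY Y i)) = (fun i => C' (coordFun c i)) from funext hcoord] at h1
    exact h1.trans h2.symm
  have e2 : q.eval₂ (MvPolynomial.aeval (coordFun c) :
        MvPolynomial (Option (Fin n)) k →ₐ[k] RatFunc L).toRingHom θ = 0 := by
    apply hC'inj
    have h1 := Polynomial.hom_eval₂ q (MvPolynomial.aeval (coordFun c) :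
        MvPolynomial (Option (Fin n)) k →ₐ[k] RatFunc L).toRingHom
        (C' : RatFunc L →+* RatFunc (RatFunc L)) θ
    have h2 := Polynomial.hom_eval₂ q (MvPolynomial.aeval (coordY Y) :
      MvPolynomial (Option (Fin n)) k →ₐ[k] Y.K).toRingHom
        (Ψ : Y.K →+* RatFunc (RatFunc L)) z
    rw [hq, map_zero, e1] at h2
    rw [map_zero]
    refine h1.trans ?_
    rw [RingHom.coe_coe, hθ]
    exact h2.symm
  have hθalg : IsAlgebraic (functionField k c) θ := by
    let E := functionField k c
    have hmem : ∀ a, coordFun c a ∈ E := fun a => IntermediateField.subset_adjoin _ _ ⟨a, rfl⟩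
    let ι : MvPolynomial (Option (Fin n)) k →ₐ[k] E :=
      MvPolynomial.aeval (fun a => (⟨coordFun c a, hmem a⟩ : E))
    have hι : ∀ p, ((ι p : E) : RatFunc L) = MvPolynomial.aeval (coordFun c) p := by
      intro p
      exact MvPolynomial.comp_aeval_apply (fun a => (⟨coordFun c a, hmem a⟩ : E)) E.val p
    have hιinj : Function.Injective ι := by
      rw [injective_iff_map_eq_zero]
      intro p hp
      have := hι p
      rw [hp] at this
      exact (algebraicIndependent_iff.mp hx) p this.symm
    refine ⟨q.map (ι : MvPolynomial (Option (Fin n)) k →+* E), ?_, ?_⟩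
    · intro h
      exact hq0 (Polynomial.map_injective _ hιinj (h.trans (Polynomial.map_zero _).symm))
    · rw [Polynomial.aeval_def, Polynomial.eval₂_map, ← e2]
      congr 1
      apply RingHom.ext
      intro p
      exact hι p
  have hθmem := hcl θ hθalg
  -- conclusion
  rw [imageField_eq Y c ψ hψ hprop hne hx]
  have h1 : Ψ z ∈ (functionField k c).map C' := ⟨θ, hθmem, hθ⟩
  unfold functionField at h1
  rw [IntermediateField.adjoin_map, ← Set.range_comp] at h1
  have h2 : (C' ∘ coordFun c) = (Ψ ∘ coordY Y) := by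
    funext a
    exact (hcoord a).symm
  rw [h2, Set.range_comp, ← IntermediateField.adjoin_map] at h1
  obtain ⟨w, hw, hwz⟩ := h1
  have : w = z := Ψ.toRingHom.injective hwz
  rw [← this]
  exact hw

end

/-- The components `closure (stratum k n e m)` with `1 ≤ m` are not dominated by curves on a
generically finite, non-birational `Y → X_n`. -/
theorem not_dominates {m : ℕ} [IsAlgClosed k] [CharZero k] (hm : 2 * m ≤ e) (hm1 : 1 ≤ m)
    (Y : Source k n) (hfin : Y.GenericallyFinite) (hbir : ¬ Y.Birational) :
    ¬ Y.Dominates (closure (stratum k n e m)) := by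
  intro hdom
  have hinf : Infinite k := IsAlgClosed.instInfinite
  have hM : (idealOf (closure (stratum k n e m))).IsPrime := by
    rw [idealOf_closure]
    exact idealOf_stratum_isPrime hm (by omega)
  obtain ⟨L, _, _, c, hc, ψ, hψ, hprop, hne⟩ := exists_generic_lift Y _ hM hdom
  exact hbir (birational_of_lift Y c ψ hψ hprop hne (algebraicIndependent_coordFun hm hm1 c hc) hfin
    (mem_functionField_of_isAlgebraic hm hm1 c hc))

end Pool.Agent.H22.GMC
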